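import Pool.Agent.Q11.HL.Mink

/-!
# Actions on finitely generated torsion-free abelian groups through finite groups
-/

set_option autoImplicit false

namespace Pool.Agent.Q11.HL

open Subgroup

universe u v

/-- the index of the kernel of an action, with all elements of finite order, is bounded in terms of
the rank -/
theorem ker_index {M : Type v} {U : Type u} [Group M] [hU : Group U] (hc : ∀ a b : U, a * b = b * a)
    (hfg : Group.FG U) (htf : ∀ u : U, IsOfFinOrder u → u = 1) {m : ℕ} (h : HirschLE U m)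
    (θ : M →* MulAut U) (hθ : ∀ g, ∃ n : ℕ, 0 < n ∧ θ (g ^ n) = 1) :
    θ.ker.index ≠ 0 ∧ θ.ker.index ≤ 3 ^ (m ^ 2) := by
  classical
  let _ : CommGroup U := { hU with mul_comm := hc }
  have hcf := card_cubes (U := U) h htf
  obtain ⟨n, ⟨b⟩⟩ := basis_of (U := U) htf
  set C : Subgroup U := (powMonoidHom 3 : U →* U).range with hC
  have hCm : ∀ e : MulAut U, C.map (e : U →* U) = C := by
    intro e
    apply le_antisymm
    · rintro _ ⟨_, ⟨v, rfl⟩, rfl⟩
      exact ⟨e v, by simp⟩
    · rintro _ ⟨v, rfl⟩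
      exact ⟨(e.symm v) ^ 3, ⟨e.symm v, rfl⟩, by simp⟩
  let θ' : M →* MulAut (U ⧸ C) :=
    { toFun := fun g => QuotientGroup.congr C C (θ g) (hCm (θ g))
      map_one' := by
        ext q
        obtain ⟨u, rfl⟩ := QuotientGroup.mk_surjective q
        rw [QuotientGroup.congr_mk, map_one]
        rfl
      map_mul' := fun g g' => by
        ext q
        obtain ⟨u, rfl⟩ := QuotientGroup.mk_surjective q
        rw [QuotientGroup.congr_mk, map_mul]
        rfl }
  have hker : θ'.ker ≤ θ.ker := by
    intro g hg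
    rw [MonoidHom.mem_ker] at hg ⊢
    -- the endomorphism of the additive group
    let φ : Module.End ℤ (Additive U) := (MonoidHom.toAdditive (θ g).toMonoidHom).toIntLinearMap
    have hφa : ∀ u : U, φ (Additive.ofMul u) = Additive.ofMul (θ g u) := fun u => rfl
    have hmod : ∀ a, ∃ c, φ a - a = (3 : ℕ) • c := by
      intro a
      have h1 : (QuotientGroup.mk (θ g (Additive.toMul a)) : U ⧸ C) =
          QuotientGroup.mk (Additive.toMul a) := by
        have := congrArg (fun e : MulAut (U ⧸ C) => e (QuotientGroup.mk (Additive.toMul a))) hg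
        exact this
      have h2 : (Additive.toMul a)⁻¹ * θ g (Additive.toMul a) ∈ C := QuotientGroup.eq.1 h1.symm
      obtain ⟨v, hv⟩ := h2
      refine ⟨Additive.ofMul v, ?_⟩
      apply Additive.toMul.injective
      show θ g (Additive.toMul a) / Additive.toMul a = v ^ 3
      rw [powMonoidHom_apply] at hv
      rw [hv, div_eq_mul_inv, mul_comm]
    obtain ⟨N, hN, hN1⟩ := hθ g
    have hpow : ∀ k : ℕ, ∀ u : U, (φ ^ k) (Additive.ofMul u) = Additive.ofMul (θ (g ^ k) u) := by
      intro k
      induction k with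
      | zero => intro u; simp
      | succ k ih =>
        intro u
        rw [pow_succ, Module.End.mul_apply, hφa, ih, pow_succ, map_mul]
        rfl
    have h3 : φ ^ N = 1 := by
      ext a
      have h4 := hpow N (Additive.toMul a)
      rw [hN1] at h4
      exact h4
    have h5 := minkowski b φ hmod N hN h3
    ext u
    have h6 : φ (Additive.ofMul u) = Additive.ofMul u := by rw [h5]; rfl
    exact congrArg Additive.toMul h6
  have hfinQ : Finite (U ⧸ C) := hcf.1
  have hfinA : Finite (MulAut (U ⧸ C)) :=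
    Finite.of_injective (fun e : MulAut (U ⧸ C) => (e.toEquiv : Equiv.Perm (U ⧸ C)))
      (fun e e' hee => MulEquiv.toEquiv_injective hee)
  have hidx : θ'.ker.index = Nat.card θ'.range := index_ker θ'
  have hidx0 : θ'.ker.index ≠ 0 := by
    rw [hidx]
    exact Nat.card_pos.ne'
  have hle : θ'.ker.index ≤ 3 ^ (m ^ 2) := by
    have h1 : Nat.card θ'.range ≤ Nat.card (MulAut (U ⧸ C)) :=
      Nat.card_le_card_of_injective _ θ'.range.subtype_injective
    have h2 : Nat.card (MulAut (U ⧸ C)) ≤ Nat.card (Fin n → U ⧸ C) := by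
      refine Nat.card_le_card_of_injective
        (fun e : MulAut (U ⧸ C) => fun i => e (QuotientGroup.mk (Additive.toMul (b i)))) ?_
      intro e e' hee
      let F : MulAut (U ⧸ C) → (Additive U →ₗ[ℤ] Additive (U ⧸ C)) := fun e =>
        (MonoidHom.toAdditive (e.toMonoidHom.comp (QuotientGroup.mk' C))).toIntLinearMap
      have h3 : F e = F e' := by
        apply b.ext
        intro i
        exact congrArg Additive.ofMul (congrFun hee i)
      ext q
      obtain ⟨u, rfl⟩ := QuotientGroup.mk_surjective q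
      have h4 := congrArg (fun f : Additive U →ₗ[ℤ] Additive (U ⧸ C) => f (Additive.ofMul u)) h3
      exact congrArg Additive.toMul h4
    have h3 : Nat.card (Fin n → U ⧸ C) = Nat.card (U ⧸ C) ^ n := by
      rw [Nat.card_fun]
      simp
    have h4 : Nat.card (U ⧸ C) ^ n ≤ 3 ^ (m ^ 2) := by
      calc Nat.card (U ⧸ C) ^ n ≤ (3 ^ m) ^ n := Nat.pow_le_pow_left hcf.2 n
        _ ≤ (3 ^ m) ^ m := Nat.pow_le_pow_right (by positivity) (rank_le h b)
        _ = 3 ^ (m ^ 2) := by rw [← pow_mul, sq]
    rw [hidx]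
    exact h1.trans (h2.trans (h3.le.trans h4))
  have hdvd := index_dvd_of_le hker
  exact ⟨fun h0 => hidx0 (Nat.eq_zero_of_zero_dvd (h0 ▸ hdvd)),
    (Nat.le_of_dvd (Nat.pos_of_ne_zero hidx0) hdvd).trans hle⟩

/-- conjugation on the quotient of two normal subgroups -/
noncomputable def conjQ {M : Type u} [Group M] (A B : Subgroup M) [hA : A.Normal] [B.Normal] :
    M →* MulAut (B ⧸ A.subgroupOf B) where
  toFun g := QuotientGroup.congr (A.subgroupOf B) (A.subgroupOf B) (MulAut.conjNormal g) (by
    apply le_antisymm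
    · rintro _ ⟨x, hx, rfl⟩
      exact hA.conj_mem _ hx g
    · intro x hx
      refine ⟨MulAut.conjNormal g⁻¹ x, ?_, ?_⟩
      · exact hA.conj_mem _ hx g⁻¹
      · apply Subtype.ext
        simp only [MulAut.conjNormal_apply, MonoidHom.coe_coe, inv_inv]
        group)
  map_one' := by
    ext q
    obtain ⟨u, rfl⟩ := QuotientGroup.mk_surjective q
    rw [QuotientGroup.congr_mk, map_one]
    rfl
  map_mul' g g' := by
    ext q
    obtain ⟨u, rfl⟩ := QuotientGroup.mk_surjective q
    rw [QuotientGroup.congr_mk, map_mul]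
    rfl

lemma conjQ_mk {M : Type u} [Group M] (A B : Subgroup M) [A.Normal] [B.Normal] (g : M) (x : B) :
    conjQ A B g (QuotientGroup.mk x) = QuotientGroup.mk (MulAut.conjNormal g x) := rfl

lemma mem_ker_conjQ {M : Type u} [Group M] (A B : Subgroup M) [A.Normal] [B.Normal] (g : M) :
    g ∈ (conjQ A B).ker ↔ ∀ x ∈ B, x⁻¹ * (g * x * g⁻¹) ∈ A := by
  rw [MonoidHom.mem_ker]
  constructor
  · intro h x hx
    have h1 := congrArg (fun e : MulAut (B ⧸ A.subgroupOf B) => e (QuotientGroup.mk ⟨x, hx⟩)) h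
    have h2 : (QuotientGroup.mk (MulAut.conjNormal g (⟨x, hx⟩ : B)) : B ⧸ A.subgroupOf B) =
        QuotientGroup.mk ⟨x, hx⟩ := h1
    have h3 : (⟨x, hx⟩ : B)⁻¹ * MulAut.conjNormal g (⟨x, hx⟩ : B) ∈ A.subgroupOf B :=
      QuotientGroup.eq.1 h2.symm
    exact h3
  · intro h
    ext q
    obtain ⟨⟨x, hx⟩, rfl⟩ := QuotientGroup.mk_surjective q
    have h3 : (⟨x, hx⟩ : B)⁻¹ * MulAut.conjNormal g (⟨x, hx⟩ : B) ∈ A.subgroupOf B := h x hx
    exact (QuotientGroup.eq.2 h3).symm

end Pool.Agent.Q11.HL
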