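import Mathlib

/-!
# Baer's theorem: if `Z_c(K)` has finite index then `γ_{c+1}(K)` is finite
-/

set_option autoImplicit false

namespace Pool.Agent.Q11.HL

open Subgroup hiding upperCentralSeries upperCentralSeries_zero lowerCentralSeries_zero
  lowerCentralSeries_succ
open scoped commutatorElement

universe u v

variable {K : Type u} [Group K]

lemma three_sub {N A B C : Subgroup K} [hN : N.Normal] (h1 : ⁅⁅B, C⁆, A⁆ ≤ N) (h2 : ⁅⁅C, A⁆, B⁆ ≤ N) :
    ⁅⁅A, B⁆, C⁆ ≤ N := by
  have key : ∀ H : Subgroup K, H ≤ N ↔ H.map (QuotientGroup.mk' N) = ⊥ := by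
    intro H
    rw [Subgroup.map_eq_bot_iff, QuotientGroup.ker_mk']
  rw [key, map_commutator, map_commutator] at h1 h2 ⊢
  exact commutator_commutator_eq_bot_of_rotate h1 h2

lemma lcs_ucs (i j : ℕ) :
    ⁅(⊤ : Subgroup K).lowerCentralSeries i, Subgroup.upperCentralSeries K (i + 1 + j)⁆ ≤
      Subgroup.upperCentralSeries K j := by
  induction i generalizing j with
  | zero =>
    rw [Subgroup.lowerCentralSeries_zero, commutator_le]
    intro g _ x hx
    rw [zero_add, add_comm 1 j] at hx
    have h1 := (Subgroup.mem_upperCentralSeries_succ_iff).1 hx g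
    have h2 : ⁅g, x⁆ = (x * g * x⁻¹ * g⁻¹)⁻¹ := by rw [commutatorElement_def]; group
    rw [h2]
    exact inv_mem h1
  | succ i ih =>
    rw [Subgroup.lowerCentralSeries_succ]
    have hcomm : ∀ n, ⁅Subgroup.upperCentralSeries K (n + 1), (⊤ : Subgroup K)⁆ ≤ Subgroup.upperCentralSeries K n := by
      intro n
      rw [commutator_le]
      intro x hx g _
      have h1 := (Subgroup.mem_upperCentralSeries_succ_iff).1 hx g
      rwa [commutatorElement_def]
    apply three_sub
    · -- [[⊤, U], L]
      have h1 : ⁅(⊤ : Subgroup K), Subgroup.upperCentralSeries K (i + 1 + 1 + j)⁆ ≤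
          Subgroup.upperCentralSeries K (i + 1 + j) := by
        rw [commutator_comm]
        have e : i + 1 + 1 + j = (i + 1 + j) + 1 := by ring
        rw [e]
        exact hcomm _
      refine (commutator_mono h1 le_rfl).trans ?_
      rw [commutator_comm]
      exact ih j
    · -- [[U, L], ⊤]
      have h1 : ⁅Subgroup.upperCentralSeries K (i + 1 + 1 + j), (⊤ : Subgroup K).lowerCentralSeries i⁆ ≤
          Subgroup.upperCentralSeries K (j + 1) := by
        rw [commutator_comm]
        have e : i + 1 + 1 + j = i + 1 + (j + 1) := by ring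
        rw [e]
        exact ih (j + 1)
      exact (commutator_mono h1 le_rfl).trans (hcomm j)

/-- finitely many commutators when the center has finite index -/
lemma finite_comm_of_center {Y : Type v} [Group Y] (h : (center Y).FiniteIndex) :
    Finite (commutator Y) := by
  have hq : Finite (Y ⧸ center Y) := Subgroup.finite_quotient_of_finiteIndex
  have hf : (commutatorSet Y).Finite := by
    let F : (Y ⧸ center Y) × (Y ⧸ center Y) → Y := fun p => ⁅p.1.out, p.2.out⁆
    refine (Set.finite_range F).subset ?_
    rintro _ ⟨a, b, rfl⟩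
    refine ⟨((a : Y ⧸ center Y), (b : Y ⧸ center Y)), ?_⟩
    have key : ∀ x y : Y, (x : Y ⧸ center Y) = y → ∀ z : Y, ⁅x, z⁆ = ⁅y, z⁆ := by
      intro x y hxy z
      have h1 : x⁻¹ * y ∈ center Y := QuotientGroup.eq.1 hxy
      have h2 := (mem_center_iff.1 h1)
      have h3 : y = x * (x⁻¹ * y) := by group
      rw [h3]
      generalize x⁻¹ * y = w at h2
      rw [commutatorElement_def, commutatorElement_def, mul_inv_rev]
      calc x * z * x⁻¹ * z⁻¹ = x * (z * w) * w⁻¹ * x⁻¹ * z⁻¹ := by group
        _ = x * (w * z) * w⁻¹ * x⁻¹ * z⁻¹ := by rw [h2 z]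
        _ = x * w * z * (w⁻¹ * x⁻¹) * z⁻¹ := by group
    have key2 : ∀ x y : Y, (x : Y ⧸ center Y) = y → ∀ z : Y, ⁅z, x⁆ = ⁅z, y⁆ := by
      intro x y hxy z
      rw [← commutatorElement_inv, key x y hxy z, commutatorElement_inv]
    show ⁅(a : Y ⧸ center Y).out, (b : Y ⧸ center Y).out⁆ = ⁅a, b⁆
    rw [key _ a (Quotient.out_eq' _), key2 _ b (Quotient.out_eq' _)]
  have hcs : Finite (commutatorSet Y) := hf.to_subtype
  infer_instance

/-- a conjugation invariant finite set of elements of finite order generates a finite subgroup -/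
lemma dietzmann {D : Set K} (hD : D.Finite) (hinv : ∀ g : K, ∀ d ∈ D, g * d * g⁻¹ ∈ D)
    (htor : ∀ d ∈ D, IsOfFinOrder d) : Finite (closure D) := by
  classical
  set Y := closure D with hY
  -- the centralizer of `D` in `Y` has finite index
  have hDY : D ⊆ Y := subset_closure
  -- action of `Y` on `D`
  have hDf : Finite D := hD.to_subtype
  let act : Y →* Equiv.Perm D :=
    { toFun := fun y =>
        { toFun := fun d => ⟨y * d * (y : K)⁻¹, hinv y d d.2⟩
          invFun := fun d => ⟨(y : K)⁻¹ * d * y, by
            have := hinv (y : K)⁻¹ d d.2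
            rwa [inv_inv] at this⟩
          left_inv := fun d => Subtype.ext (by simp only; group)
          right_inv := fun d => Subtype.ext (by simp only; group) }
      map_one' := by ext d; simp
      map_mul' := fun a b => by
        ext d
        simp only [Subgroup.coe_mul, mul_inv_rev, Equiv.Perm.coe_mul, Equiv.coe_fn_mk,
          Function.comp_apply, mul_assoc] }
  have hk : act.ker.FiniteIndex := Subgroup.finiteIndex_ker _
  have hkc : act.ker ≤ center Y := by
    intro y hy
    rw [mem_center_iff]
    have h1 : ∀ d ∈ D, (y : K) * d * (y : K)⁻¹ = d := by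
      intro d hd
      have h2 := congrArg Subtype.val (Equiv.congr_fun (MonoidHom.mem_ker.1 hy) ⟨d, hd⟩)
      exact h2
    intro z
    apply Subtype.ext
    show (z : K) * y = y * z
    have h3 : (z : K) ∈ closure D := z.2
    have h4 : closure D ≤ centralizer {(y : K)} := by
      rw [closure_le]
      intro d hd
      rw [SetLike.mem_coe, mem_centralizer_singleton_iff]
      have := h1 d hd
      rw [mul_inv_eq_iff_eq_mul] at this
      exact this.symm
    exact mem_centralizer_singleton_iff.1 (h4 h3)
  have hcf : (center Y).FiniteIndex := finiteIndex_of_le hkc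
  -- Schur
  have hfg : Group.FG Y := by
    rw [hY]
    exact (Group.fg_iff_subgroup_fg _).2 ⟨hD.toFinset, by rw [hD.coe_toFinset]⟩
  have hc : Finite (commutator Y) := finite_comm_of_center hcf
  -- the abelianization is finite
  have hab : Finite (Abelianization Y) := by
    have hfgA : Group.FG (Abelianization Y) := QuotientGroup.fg (commutator Y)
    apply CommGroup.finite_of_fg_isMulTorsion
    intro a
    obtain ⟨⟨y, hy⟩, rfl⟩ := QuotientGroup.mk_surjective a
    have h5 : closure D ≤ ((CommGroup.torsion (Abelianization Y)).comap Abelianization.of).map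
        Y.subtype := by
      rw [closure_le]
      intro d hd
      refine ⟨⟨d, hDY hd⟩, ?_, rfl⟩
      show IsOfFinOrder (Abelianization.of (⟨d, hDY hd⟩ : Y))
      apply MonoidHom.isOfFinOrder
      rw [← Submonoid.isOfFinOrder_coe]
      exact htor d hd
    obtain ⟨y', hy', hyy⟩ := h5 hy
    have : y' = ⟨y, hy⟩ := Subtype.ext hyy
    rw [this] at hy'
    exact hy'
  have : Finite (Y ⧸ commutator Y) := hab
  exact Finite.of_equiv _ (Subgroup.groupEquivQuotientProdSubgroup (s := commutator Y)).symm

/-- **Baer** -/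
theorem baer (c : ℕ) : ∀ (K : Type u) [Group K], (Subgroup.upperCentralSeries K c).FiniteIndex →
    Finite ((⊤ : Subgroup K).lowerCentralSeries c) := by
  induction c with
  | zero =>
    intro K _ h
    rw [Subgroup.upperCentralSeries_zero] at h
    have h1 : Finite K := by
      have h2 : Finite (K ⧸ (⊥ : Subgroup K)) := Subgroup.finite_quotient_of_finiteIndex
      exact Finite.of_equiv _ (QuotientGroup.quotientBot (G := K)).toEquiv
    infer_instance
  | succ c ih =>
    intro K _ h
    classical
    set Z := center K with hZ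
    set X := (⊤ : Subgroup K).lowerCentralSeries c with hX
    have hXn : X.Normal := inferInstance
    have h1 : (Subgroup.upperCentralSeries (K ⧸ Z) c).FiniteIndex := by
      refine ⟨?_⟩
      have h2 := Subgroup.comap_upperCentralSeries_quotient_center (G := K) c
      have h3 := h.index_ne_zero
      rw [← Nat.succ_eq_add_one, ← h2,
        index_comap_of_surjective _ (QuotientGroup.mk'_surjective _)] at h3
      exact h3
    have h2 := ih (K ⧸ Z) h1
    have h3 : Finite (X.map (QuotientGroup.mk' Z)) := by
      rw [hX, map_lowerCentralSeries, ← MonoidHom.range_eq_map,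
        MonoidHom.range_eq_top_of_surjective _ (QuotientGroup.mk'_surjective _)]
      exact h2
    -- commutators of elements of `X` and `K`
    let D : Set K := {d | ∃ x ∈ X, ∃ k : K, d = ⁅x, k⁆}
    have hcl : closure D = (⊤ : Subgroup K).lowerCentralSeries (c + 1) := by
      rw [Subgroup.lowerCentralSeries_succ, ← hX, Subgroup.commutator_def]
      congr 1
      ext d
      constructor
      · rintro ⟨x, hx, k, rfl⟩
        exact ⟨x, hx, k, mem_top k, rfl⟩
      · rintro ⟨x, hx, k, -, rfl⟩
        exact ⟨x, hx, k, rfl⟩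
    -- dependence on the classes only
    set U := Subgroup.upperCentralSeries K (c + 1) with hU
    have hUX : ∀ x ∈ X, ∀ z ∈ U, x * z = z * x := by
      intro x hx z hz
      have h4 := lcs_ucs (K := K) c 0
      rw [Subgroup.upperCentralSeries_zero, le_bot_iff, add_zero] at h4
      have h5 : ⁅x, z⁆ ∈ ⁅X, U⁆ := commutator_mem_commutator hx hz
      rw [hX, hU, h4, mem_bot] at h5
      exact commutatorElement_eq_one_iff_mul_comm.1 h5
    have hZc : ∀ z ∈ Z, ∀ k : K, z * k = k * z := by
      intro z hz k
      exact ((mem_center_iff.1 hz) k).symm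
    have hdep : ∀ x ∈ X, ∀ x' ∈ X, ∀ k k' : K, QuotientGroup.mk' Z x = QuotientGroup.mk' Z x' →
        (k : K ⧸ U) = (k' : K ⧸ U) → ⁅x, k⁆ = ⁅x', k'⁆ := by
      intro x hx x' hx' k k' hxx hkk
      have e1 : x⁻¹ * x' ∈ Z := QuotientGroup.eq.1 hxx
      have e2 : k⁻¹ * k' ∈ U := QuotientGroup.eq.1 hkk
      obtain ⟨z, hz, hz'⟩ : ∃ z ∈ Z, x' = x * z := ⟨x⁻¹ * x', e1, by group⟩
      obtain ⟨w, hw, hw'⟩ : ∃ w ∈ U, k' = k * w := ⟨k⁻¹ * k', e2, by group⟩
      subst hz' hw'
      have e3 := hZc z hz
      have e4 := hUX _ (X.inv_mem hx) w hw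
      have e5 : ⁅x * z, k * w⁆ = ⁅x, k * w⁆ := by
        rw [commutatorElement_def, commutatorElement_def, mul_inv_rev]
        have : z * (k * w) = (k * w) * z := e3 _
        calc x * z * (k * w) * (z⁻¹ * x⁻¹) * (k * w)⁻¹
            = x * (z * (k * w)) * z⁻¹ * x⁻¹ * (k * w)⁻¹ := by group
          _ = x * (k * w) * x⁻¹ * (k * w)⁻¹ := by rw [this]; group
      rw [e5, commutatorElement_def, commutatorElement_def]
      calc x * k * x⁻¹ * k⁻¹ = x * k * (x⁻¹ * w) * w⁻¹ * k⁻¹ := by group
        _ = x * (k * w) * x⁻¹ * (k * w)⁻¹ := by rw [e4]; group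
    have hDfin : D.Finite := by
      have hUf : Finite (K ⧸ U) := Subgroup.finite_quotient_of_finiteIndex
      let F : (X.map (QuotientGroup.mk' Z)) × (K ⧸ U) → K := fun p =>
        ⁅Classical.choose p.1.2, p.2.out⁆
      have : D ⊆ Set.range F := by
        rintro d ⟨x, hx, k, rfl⟩
        have hm : QuotientGroup.mk' Z x ∈ X.map (QuotientGroup.mk' Z) := mem_map_of_mem _ hx
        refine ⟨(⟨_, hm⟩, (k : K ⧸ U)), ?_⟩
        have hs := Classical.choose_spec hm
        exact hdep _ hs.1 _ hx _ _ hs.2 (Quotient.out_eq' _)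
      exact (Set.finite_range F).subset this
    have hDinv : ∀ g : K, ∀ d ∈ D, g * d * g⁻¹ ∈ D := by
      rintro g d ⟨x, hx, k, rfl⟩
      refine ⟨g * x * g⁻¹, hXn.conj_mem x hx g, g * k * g⁻¹, ?_⟩
      rw [commutatorElement_def, commutatorElement_def]
      group
    -- the elements of `D` have finite order
    have hXfin : Finite (commutator X) := by
      have h5 : (center X).FiniteIndex := by
        have h6 : ((Z.subgroupOf X)).FiniteIndex := by
          have h7 : (Z.subgroupOf X) = ((QuotientGroup.mk' Z).comp X.subtype).ker := by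
            ext x
            rw [MonoidHom.mem_ker, mem_subgroupOf]
            exact (QuotientGroup.eq_one_iff (x : K)).symm
          rw [h7]
          have h8 : Finite ((QuotientGroup.mk' Z).comp X.subtype).range := by
            have h9 : ((QuotientGroup.mk' Z).comp X.subtype).range = X.map (QuotientGroup.mk' Z) := by
              rw [MonoidHom.range_comp, Subgroup.range_subtype]
            rw [h9]
            exact h3
          exact Subgroup.finiteIndex_ker _
        refine finiteIndex_of_le (H := Z.subgroupOf X) ?_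
        intro x hx
        rw [mem_center_iff]
        intro y
        apply Subtype.ext
        exact (hZc _ (mem_subgroupOf.1 hx) _).symm
      exact finite_comm_of_center h5
    have htor : ∀ d ∈ D, IsOfFinOrder d := by
      rintro d ⟨x, hx, k, rfl⟩
      -- some power of `x` is central
      obtain ⟨e, he, hxe⟩ : ∃ e : ℕ, 0 < e ∧ x ^ e ∈ Z := by
        have h5 : IsOfFinOrder (⟨QuotientGroup.mk' Z x, mem_map_of_mem _ hx⟩ :
            X.map (QuotientGroup.mk' Z)) := isOfFinOrder_of_finite _
        obtain ⟨e, he, he1⟩ := isOfFinOrder_iff_pow_eq_one.1 h5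
        refine ⟨e, he, ?_⟩
        have h6 := congrArg Subtype.val he1
        have h7 : QuotientGroup.mk' Z (x ^ e) = 1 := by
          rw [map_pow]
          exact h6
        exact (QuotientGroup.eq_one_iff _).1 h7
      have hkx : k * x⁻¹ * k⁻¹ ∈ X := hXn.conj_mem _ (X.inv_mem hx) k
      let x1 : X := ⟨x, hx⟩
      let x2 : X := ⟨k * x⁻¹ * k⁻¹, hkx⟩
      have hprod : (⁅x, k⁆ : K) = ((x1 * x2 : X) : K) := by
        rw [commutatorElement_def]
        show x * k * x⁻¹ * k⁻¹ = x * (k * x⁻¹ * k⁻¹)
        group
      rw [hprod, Submonoid.isOfFinOrder_coe (H := X.toSubmonoid)]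
      have h8 : (x1 * x2) ^ e ∈ commutator X := by
        rw [← Abelianization.ker_of, MonoidHom.mem_ker, map_pow, map_mul, mul_pow, ← map_pow,
          ← map_pow, ← map_mul]
        have h9 : x1 ^ e * x2 ^ e = 1 := by
          apply Subtype.ext
          show x ^ e * (k * x⁻¹ * k⁻¹) ^ e = 1
          rw [conj_pow, inv_pow]
          have h10 := hZc _ (Z.inv_mem hxe) k
          calc x ^ e * (k * (x ^ e)⁻¹ * k⁻¹) = x ^ e * ((x ^ e)⁻¹ * k * k⁻¹) := by rw [h10]
            _ = 1 := by group
        rw [h9, map_one]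
      have h11 : IsOfFinOrder (⟨(x1 * x2) ^ e, h8⟩ : commutator X) := isOfFinOrder_of_finite _
      rw [← Submonoid.isOfFinOrder_coe] at h11
      exact IsOfFinOrder.of_pow h11 he.ne'
    have h12 := dietzmann hDfin hDinv htor
    rw [hcl] at h12
    exact h12

end Pool.Agent.Q11.HL
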