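import Mathlib

/-!
# Hirsch length through chains of subgroups
-/

set_option autoImplicit false

namespace Pool.Agent.Q11.HL

open Subgroup

universe u v

/-- `A` is a normal subgroup of `B` and `B / A` is infinite cyclic -/
def ZStep {G : Type u} [Group G] (A B : Subgroup G) : Prop :=
  A ≤ B ∧ ∃ f : B →* Multiplicative ℤ, Function.Surjective f ∧ ∀ b : B, f b = 1 ↔ (b : G) ∈ A

/-- every chain of subgroups of `G` has at most `m` steps with infinite cyclic quotient -/
def HirschLE (G : Type u) [Group G] (m : ℕ) : Prop :=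
  ∀ (J : Finset ℕ) (A B : ℕ → Subgroup G), (∀ j ∈ J, ZStep (A j) (B j)) →
    (∀ i ∈ J, ∀ j ∈ J, i < j → B i ≤ A j) → J.card ≤ m

variable {G : Type u} [Group G] {H : Type v} [Group H]

lemma ZStep.map {A B : Subgroup G} (h : ZStep A B) {φ : G →* H} (hφ : Function.Injective φ) :
    ZStep (A.map φ) (B.map φ) := by
  obtain ⟨hAB, f, hf, hk⟩ := h
  refine ⟨map_mono hAB, f.comp (B.equivMapOfInjective φ hφ).symm.toMonoidHom, ?_, ?_⟩
  · exact hf.comp (B.equivMapOfInjective φ hφ).symm.surjective
  · intro b
    obtain ⟨b', rfl⟩ := (B.equivMapOfInjective φ hφ).surjective b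
    show f ((B.equivMapOfInjective φ hφ).symm ((B.equivMapOfInjective φ hφ) b')) = 1 ↔ _
    rw [MulEquiv.symm_apply_apply, hk, coe_equivMapOfInjective_apply, mem_map_iff_mem hφ]

lemma ZStep.comap {A B : Subgroup H} (h : ZStep A B) {φ : G →* H} (hφ : Function.Surjective φ) :
    ZStep (A.comap φ) (B.comap φ) := by
  obtain ⟨hAB, f, hf, hk⟩ := h
  refine ⟨comap_mono hAB, f.comp (φ.subgroupComap B), ?_, ?_⟩
  · apply hf.comp
    rintro ⟨x, hx⟩
    obtain ⟨y, rfl⟩ := hφ x
    exact ⟨⟨y, hx⟩, rfl⟩
  · intro b
    show f (φ.subgroupComap B b) = 1 ↔ _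
    rw [hk]
    rfl

lemma HirschLE.of_injective {m : ℕ} (h : HirschLE H m) {φ : G →* H} (hφ : Function.Injective φ) :
    HirschLE G m := by
  intro J A B h1 h2
  exact h J (fun j => (A j).map φ) (fun j => (B j).map φ) (fun j hj => (h1 j hj).map hφ)
    (fun i hi j hj hij => map_mono (h2 i hi j hj hij))

lemma HirschLE.of_surjective {m : ℕ} (h : HirschLE G m) {φ : G →* H} (hφ : Function.Surjective φ) :
    HirschLE H m := by
  intro J A B h1 h2
  exact h J (fun j => (A j).comap φ) (fun j => (B j).comap φ) (fun j hj => (h1 j hj).comap hφ)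
    (fun i hi j hj hij => comap_mono (h2 i hi j hj hij))

lemma HirschLE.sub {m : ℕ} (h : HirschLE G m) (N : Subgroup G) : HirschLE N m :=
  h.of_injective N.subtype_injective

lemma HirschLE.quot {m : ℕ} (h : HirschLE G m) (N : Subgroup G) [N.Normal] : HirschLE (G ⧸ N) m :=
  h.of_surjective (QuotientGroup.mk'_surjective N)

lemma HirschLE.mono {m n : ℕ} (h : HirschLE G m) (hmn : m ≤ n) : HirschLE G n :=
  fun J A B h1 h2 => (h J A B h1 h2).trans hmn

/-- extensions -/
lemma HirschLE.ext {a b : ℕ} (N : Subgroup G) [hN : N.Normal] (ha : HirschLE N a)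
    (hb : HirschLE (G ⧸ N) b) : HirschLE G (a + b) := by
  classical
  intro J A B h1 h2
  -- indices where the step is seen in `N`
  let P : ℕ → Prop := fun j => ¬ (B j ⊓ N ≤ A j)
  have hsplit : J.card = (J.filter P).card + (J.filter (fun j => ¬ P j)).card := by
    rw [← Finset.card_union_of_disjoint (Finset.disjoint_filter_filter_not _ _ _),
      Finset.filter_union_filter_not_eq]
  rw [hsplit]
  apply add_le_add
  · refine ha (J.filter P) (fun j => (A j).subgroupOf N) (fun j => (B j).subgroupOf N) ?_ ?_
    · intro j hj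
      rw [Finset.mem_filter] at hj
      obtain ⟨hAB, f, hf, hk⟩ := h1 j hj.1
      refine ⟨comap_mono hAB, ?_⟩
      -- the restriction of `f` to `B j ∩ N`
      let g : ((B j).subgroupOf N) →* Multiplicative ℤ :=
        f.comp ((N.subtype.comp ((B j).subgroupOf N).subtype).codRestrict (B j) (fun x => x.2))
      have hg : ∀ x : (B j).subgroupOf N, g x = 1 ↔ ((x : N) : G) ∈ A j := fun x => hk _
      have hgr : g.range ≠ ⊥ := by
        intro hbot
        apply hj.2
        rintro x ⟨hxB, hxN⟩
        have h3 : g ⟨⟨x, hxN⟩, hxB⟩ = 1 := by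
          have : g ⟨⟨x, hxN⟩, hxB⟩ ∈ g.range := ⟨_, rfl⟩
          rwa [hbot, mem_bot] at this
        exact (hg _).1 h3
      -- the range is infinite cyclic
      have hiso : Nonempty (g.range ≃* Multiplicative ℤ) := by
        have hinf : Infinite g.range := by
          obtain ⟨⟨y, hy⟩, hy0⟩ := ne_bot_iff_exists_ne_one.1 hgr
          have hy1 : y ≠ 1 := fun h => hy0 (Subtype.ext h)
          have hyo : ¬ IsOfFinOrder y := by
            intro ho
            obtain ⟨n, hn, hn1⟩ := isOfFinOrder_iff_pow_eq_one.1 ho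
            apply hy1
            have h4 : n • Multiplicative.toAdd y = 0 := congrArg Multiplicative.toAdd hn1
            rw [smul_eq_zero] at h4
            rcases h4 with h4 | h4
            · omega
            · exact congrArg Multiplicative.ofAdd h4
          have := injective_pow_iff_not_isOfFinOrder.2 hyo
          exact Infinite.of_injective (fun n : ℕ => (⟨y ^ n, g.range.pow_mem hy n⟩ : g.range))
            (fun a b hab => this (congrArg Subtype.val hab))
        have hcyc : IsCyclic g.range := inferInstance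
        exact ⟨(intCyclicMulEquiv).symm⟩
      obtain ⟨e⟩ := hiso
      refine ⟨e.toMonoidHom.comp g.rangeRestrict, ?_, ?_⟩
      · exact e.surjective.comp g.rangeRestrict_surjective
      · intro x
        show e (g.rangeRestrict x) = 1 ↔ _
        rw [MulEquiv.map_eq_one_iff, Subtype.ext_iff]
        exact hg x
    · intro i hi j hj hij
      rw [Finset.mem_filter] at hi hj
      exact comap_mono (h2 i hi.1 j hj.1 hij)
  · refine hb (J.filter (fun j => ¬ P j)) (fun j => (A j).map (QuotientGroup.mk' N))
      (fun j => (B j).map (QuotientGroup.mk' N)) ?_ ?_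
    · intro j hj
      rw [Finset.mem_filter] at hj
      obtain ⟨hAB, f, hf, hk⟩ := h1 j hj.1
      have hle : B j ⊓ N ≤ A j := by
        by_contra hcon
        exact hj.2 hcon
      refine ⟨map_mono hAB, ?_⟩
      let φ : B j →* (B j).map (QuotientGroup.mk' N) := (QuotientGroup.mk' N).subgroupMap (B j)
      have hφ : Function.Surjective φ := (QuotientGroup.mk' N).subgroupMap_surjective (B j)
      have hker : φ.ker ≤ f.ker := by
        intro x hx
        rw [MonoidHom.mem_ker] at hx ⊢
        rw [hk]
        apply hle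
        refine ⟨x.2, ?_⟩
        have : QuotientGroup.mk' N (x : G) = 1 := congrArg Subtype.val hx
        exact (QuotientGroup.eq_one_iff _).1 this
      let g : (B j).map (QuotientGroup.mk' N) →* Multiplicative ℤ :=
        φ.liftOfSurjective hφ ⟨f, hker⟩
      have hg : ∀ x : B j, g (φ x) = f x := fun x => φ.liftOfRightInverse_comp_apply _ _ ⟨f, hker⟩ x
      refine ⟨g, ?_, ?_⟩
      · intro y
        obtain ⟨x, rfl⟩ := hf y
        exact ⟨φ x, hg x⟩
      · intro y
        obtain ⟨x, rfl⟩ := hφ y
        rw [hg, hk]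
        constructor
        · intro hx
          exact ⟨x, hx, rfl⟩
        · rintro ⟨a, ha, hax⟩
          have h5 : QuotientGroup.mk' N a = QuotientGroup.mk' N (x : G) := hax
          have h6 : a⁻¹ * (x : G) ∈ N := QuotientGroup.eq.1 h5
          have h7 : a⁻¹ * (x : G) ∈ A j :=
            hle ⟨(B j).mul_mem ((B j).inv_mem (hAB ha)) x.2, h6⟩
          have h8 := (A j).mul_mem ha h7
          rwa [mul_inv_cancel_left] at h8
    · intro i hi j hj hij
      rw [Finset.mem_filter] at hi hj
      exact map_mono (h2 i hi.1 j hj.1 hij)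

/-- abelian groups -/
lemma HirschLE.of_rank {A : Type u} [CommGroup A] {m : ℕ}
    (h : Module.rank ℤ (Additive A) ≤ (m : Cardinal.{u})) : HirschLE A m := by
  classical
  intro J X Y h1 h2
  choose! hle f hf hk using fun j hj => (h1 j hj)
  -- elements mapping to the generator
  have hx : ∀ j ∈ J, ∃ x : Y j, f j x = Multiplicative.ofAdd 1 := fun j hj => hf j hj _
  choose! x hx using hx
  -- linear independence
  have hli : LinearIndependent ℤ (fun j : J => (Additive.ofMul ((x j : Y j) : A) : Additive A)) := by
    rw [Fintype.linearIndependent_iff]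
    intro c hc
    by_contra hcon
    push Not at hcon
    obtain ⟨i0, hi0⟩ := hcon
    -- the largest index with nonzero coefficient
    have hne : (Finset.univ.filter (fun j : J => c j ≠ 0)).Nonempty :=
      ⟨i0, by simp [hi0]⟩
    obtain ⟨k, hk1, hk2⟩ := Finset.exists_max_image (Finset.univ.filter (fun j : J => c j ≠ 0))
      (fun j => (j : ℕ)) hne
    rw [Finset.mem_filter] at hk1
    have hsum : c k • (Additive.ofMul ((x k : Y k) : A) : Additive A) =
        - ∑ j ∈ Finset.univ.erase k, c j • (Additive.ofMul ((x j : Y j) : A) : Additive A) := by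
      rw [eq_neg_iff_add_eq_zero, ← hc]
      exact Finset.add_sum_erase Finset.univ
        (fun j : J => c j • (Additive.ofMul ((x j : Y j) : A) : Additive A)) (Finset.mem_univ k)
    have hmem : ∀ j ∈ Finset.univ.erase k,
        Additive.toMul (c j • (Additive.ofMul ((x j : Y j) : A) : Additive A)) ∈ X k := by
      intro j hj
      rw [Finset.mem_erase] at hj
      by_cases hcj : c j = 0
      · rw [hcj, zero_smul]
        exact (X k).one_mem
      · have hjk : (j : ℕ) < k := lt_of_le_of_ne (hk2 j (by simp [hcj])) (fun h => hj.1 (Subtype.ext h))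
        have h3 : ((x j : Y j) : A) ∈ X k := h2 j j.2 k k.2 hjk (x j).2
        exact (X k).zpow_mem h3 (c j)
    have hmem2 : ((x k : Y k) : A) ^ c k ∈ X k := by
      have h4 : Additive.toMul (- ∑ j ∈ Finset.univ.erase k,
          c j • (Additive.ofMul ((x j : Y j) : A) : Additive A)) ∈ X k := by
        rw [toMul_neg, toMul_sum]
        exact (X k).inv_mem ((X k).prod_mem hmem)
      rw [← hsum] at h4
      exact h4
    have h5 : f k ((x k) ^ c k) = 1 := (hk k k.2 _).2 hmem2
    rw [map_zpow, hx k k.2, ← ofAdd_zsmul, smul_eq_mul, mul_one] at h5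
    exact hk1.2 (congrArg Multiplicative.toAdd h5)
  have h4 : (J.card : Cardinal.{u}) ≤ m := by
    have h5 : Cardinal.lift.{u} (Cardinal.mk J) ≤ Cardinal.lift.{0} (Module.rank ℤ (Additive A)) :=
      hli.cardinal_lift_le_rank
    rw [Cardinal.lift_id'.{0, u}] at h5
    simp only [Cardinal.mk_coe_finset, Cardinal.lift_natCast] at h5
    exact h5.trans h
  exact_mod_cast h4

end Pool.Agent.Q11.HL
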