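import Pool.Agent.Q11.HL.Act
import Pool.Agent.Q11.HL.Baer

/-!
# Virtually nilpotent groups of bounded Hirsch length
-/

set_option autoImplicit false

namespace Pool.Agent.Q11.HL

open Subgroup
open scoped commutatorElement

universe u v

section tf

variable {N : Type u} [Group N]

lemma ucs_le_succ (i : ℕ) : Subgroup.upperCentralSeries N i ≤ Subgroup.upperCentralSeries N (i + 1) :=
  Subgroup.upperCentralSeries_mono N (Nat.le_succ i)

/-- modulo `Z_i`, powers and commutators -/
lemma comm_pow_mem {i : ℕ} {x : N} (hx : x ∈ Subgroup.upperCentralSeries N (i + 2)) (y : N) (n : ℕ) :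
    ∃ z ∈ Subgroup.upperCentralSeries N i, ⁅x ^ n, y⁆ = ⁅x, y⁆ ^ n * z := by
  -- work in the quotient
  set Z := Subgroup.upperCentralSeries N i with hZ
  have hxy : ⁅x, y⁆ ∈ Subgroup.upperCentralSeries N (i + 1) :=
    Subgroup.mem_upperCentralSeries_succ_iff.1 hx y
  have hc : ∀ w : N, Commute (QuotientGroup.mk' Z ⁅x, y⁆) (QuotientGroup.mk' Z w) := by
    intro w
    have h1 : ⁅⁅x, y⁆, w⁆ ∈ Z := Subgroup.mem_upperCentralSeries_succ_iff.1 hxy w
    have h2 : QuotientGroup.mk' Z ⁅⁅x, y⁆, w⁆ = 1 := (QuotientGroup.eq_one_iff _).2 h1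
    rw [map_commutatorElement, commutatorElement_eq_one_iff_commute] at h2
    exact h2
  have h3 : QuotientGroup.mk' Z ⁅x ^ n, y⁆ = QuotientGroup.mk' Z (⁅x, y⁆ ^ n) := by
    induction n with
    | zero => simp
    | succ n ih =>
      have e : ⁅x ^ (n + 1), y⁆ = x * ⁅x ^ n, y⁆ * x⁻¹ * ⁅x, y⁆ := by
        rw [commutatorElement_def, commutatorElement_def, commutatorElement_def, pow_succ']
        group
      rw [e, map_mul, map_mul, map_mul, ih, pow_succ, map_mul, map_inv, map_pow]
      have h4 := (hc x).pow_left n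
      rw [← h4.eq]
      group
  refine ⟨(⁅x, y⁆ ^ n)⁻¹ * ⁅x ^ n, y⁆, ?_, by group⟩
  exact QuotientGroup.eq.1 h3.symm

/-- the factors of the upper central series are torsion-free if the centre is -/
lemma tf_factor (h : ∀ x ∈ Subgroup.upperCentralSeries N 1, ∀ n : ℕ, 0 < n → x ^ n = 1 → x = 1) :
    ∀ i : ℕ, ∀ x ∈ Subgroup.upperCentralSeries N (i + 1), ∀ n : ℕ, 0 < n →
      x ^ n ∈ Subgroup.upperCentralSeries N i → x ∈ Subgroup.upperCentralSeries N i := by
  intro i
  induction i with
  | zero =>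
    intro x hx n hn hxn
    rw [Subgroup.upperCentralSeries_zero, mem_bot] at hxn ⊢
    exact h x hx n hn hxn
  | succ i ih =>
    intro x hx n hn hxn
    rw [Subgroup.mem_upperCentralSeries_succ_iff]
    intro y
    have hxy : ⁅x, y⁆ ∈ Subgroup.upperCentralSeries N (i + 1) :=
      Subgroup.mem_upperCentralSeries_succ_iff.1 hx y
    apply ih _ hxy n hn
    obtain ⟨z, hz, he⟩ := comm_pow_mem hx y n
    have h1 : ⁅x ^ n, y⁆ ∈ Subgroup.upperCentralSeries N i :=
      Subgroup.mem_upperCentralSeries_succ_iff.1 hxn y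
    rw [he] at h1
    exact (Subgroup.mul_mem_cancel_right _ hz).1 h1

end tf

/-- index of the kernel of the action on a factor -/
theorem core_tf {M : Type u} [Group M] (N : Subgroup M) [hN : N.Normal] (hfi : N.FiniteIndex)
    (hnil : Group.IsNilpotent N) (hNS : ∀ R : Subgroup N, R.FG)
    (htf : ∀ x ∈ Subgroup.upperCentralSeries N 1, ∀ n : ℕ, 0 < n → x ^ n = 1 → x = 1) {m : ℕ}
    (hm : HirschLE M m) :
    ∃ (K : Subgroup M) (c : ℕ), K.index ≠ 0 ∧ K.index ≤ 3 ^ (m ^ 3) ∧
      Finite ((⊤ : Subgroup K).lowerCentralSeries c) := by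
  classical
  set Z : ℕ → Subgroup M := fun i => (Subgroup.upperCentralSeries N i).map N.subtype with hZ
  have hZn : ∀ i, (Z i).Normal := fun i => by
    rw [hZ]
    infer_instance
  have hZm : Monotone Z := fun i j hij => map_mono (Subgroup.upperCentralSeries_mono N hij)
  -- the class
  have hex := hnil.nilpotent'
  set c := Nat.find hex with hc
  have hctop : Subgroup.upperCentralSeries N c = ⊤ := Nat.find_spec hex
  have hlt : ∀ i < c, Subgroup.upperCentralSeries N (i + 1) ≠ Subgroup.upperCentralSeries N i := by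
    intro i hi heq
    have hstat : ∀ j, Subgroup.upperCentralSeries N (i + j) = Subgroup.upperCentralSeries N i := by
      intro j
      induction j with
      | zero => rfl
      | succ j ih =>
        ext x
        rw [← add_assoc, Subgroup.mem_upperCentralSeries_succ_iff, ih,
          ← Subgroup.mem_upperCentralSeries_succ_iff, heq]
    have h1 := hstat (c - i)
    rw [Nat.add_sub_cancel' hi.le, hctop] at h1
    exact Nat.find_min hex hi h1.symm
  -- properties of the factors
  have hab : ∀ i, ∀ a b : (Z (i + 1)) ⧸ (Z i).subgroupOf (Z (i + 1)), a * b = b * a := by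
    intro i a b
    obtain ⟨⟨_, x, hx, rfl⟩, rfl⟩ := QuotientGroup.mk_surjective a
    obtain ⟨⟨_, y, hy, rfl⟩, rfl⟩ := QuotientGroup.mk_surjective b
    refine QuotientGroup.eq.2 ?_
    rw [mem_subgroupOf]
    have h1 := Subgroup.mem_upperCentralSeries_succ_iff.1 ((Subgroup.upperCentralSeries N (i + 1)).inv_mem hy) x⁻¹
    refine ⟨_, h1, ?_⟩
    simp [commutatorElement_def, mul_assoc]
  have hfg : ∀ i, Group.FG ((Z (i + 1)) ⧸ (Z i).subgroupOf (Z (i + 1))) := by
    intro i
    have h1 : Group.FG (Subgroup.upperCentralSeries N (i + 1)) :=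
      (Group.fg_iff_subgroup_fg _).2 (hNS (Subgroup.upperCentralSeries N (i + 1)))
    have h2 : Group.FG (Z (i + 1)) := Group.fg_of_surjective
      (f := N.subtype.subgroupMap (Subgroup.upperCentralSeries N (i + 1)))
      (N.subtype.subgroupMap_surjective _)
    infer_instance
  have htfU : ∀ i, ∀ u : (Z (i + 1)) ⧸ (Z i).subgroupOf (Z (i + 1)), IsOfFinOrder u → u = 1 := by
    intro i u hu
    obtain ⟨⟨_, x, hx, rfl⟩, rfl⟩ := QuotientGroup.mk_surjective u
    obtain ⟨n, hn, h1⟩ := isOfFinOrder_iff_pow_eq_one.1 hu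
    have h2 : (⟨N.subtype x, mem_map_of_mem _ hx⟩ : Z (i + 1)) ^ n ∈ (Z i).subgroupOf (Z (i + 1)) :=
      (QuotientGroup.eq_one_iff _).1 h1
    rw [mem_subgroupOf] at h2
    obtain ⟨y, hy, hye⟩ := h2
    have h3 : y = x ^ n := by
      apply Subtype.ext
      have : (y : M) = (x : M) ^ n := hye
      rw [this]; rfl
    rw [h3] at hy
    have h4 := tf_factor htf i x hx n hn hy
    refine (QuotientGroup.eq_one_iff _).2 ?_
    exact ⟨x, h4, rfl⟩
  have hHU : ∀ i, HirschLE ((Z (i + 1)) ⧸ (Z i).subgroupOf (Z (i + 1))) m := by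
    intro i
    exact (hm.sub (Z (i + 1))).quot _
  -- the class is at most `m`
  have hcm : c ≤ m := by
    have hstep : ∀ i < c, ∃ A : Subgroup M, Z i ≤ A ∧ ZStep A (Z (i + 1)) := by
      intro i hi
      let _ : CommGroup ((Z (i + 1)) ⧸ (Z i).subgroupOf (Z (i + 1))) :=
        { (inferInstance : Group ((Z (i + 1)) ⧸ (Z i).subgroupOf (Z (i + 1)))) with
          mul_comm := hab i }
      have := hfg i
      obtain ⟨n, ⟨b⟩⟩ := basis_of (U := (Z (i + 1)) ⧸ (Z i).subgroupOf (Z (i + 1))) (htfU i)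
      have hn : n ≠ 0 := by
        rintro rfl
        apply hlt i hi
        apply le_antisymm _ (ucs_le_succ i)
        intro x hx
        have h1 : ∀ a : Additive ((Z (i + 1)) ⧸ (Z i).subgroupOf (Z (i + 1))), a = 0 := by
          intro a
          rw [← b.sum_repr a]
          simp
        have h2 := h1 (Additive.ofMul (QuotientGroup.mk ⟨N.subtype x, mem_map_of_mem _ hx⟩))
        have h3 : (⟨N.subtype x, mem_map_of_mem _ hx⟩ : Z (i + 1)) ∈ (Z i).subgroupOf (Z (i + 1)) :=
          (QuotientGroup.eq_one_iff _).1 h2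
        rw [mem_subgroupOf] at h3
        obtain ⟨y, hy, hye⟩ := h3
        have : y = x := Subtype.ext hye
        rwa [← this]
      let k : Fin n := ⟨0, Nat.pos_of_ne_zero hn⟩
      let f : Z (i + 1) →* Multiplicative ℤ :=
        (AddMonoidHom.toMultiplicativeRight (b.coord k).toAddMonoidHom).comp
          (QuotientGroup.mk' ((Z i).subgroupOf (Z (i + 1))))
      have hf : ∀ z : Z (i + 1), f z = Multiplicative.ofAdd (b.coord k
        (Additive.ofMul (QuotientGroup.mk z : (Z (i + 1)) ⧸ (Z i).subgroupOf (Z (i + 1))))) :=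
        fun z => rfl
      refine ⟨f.ker.map (Z (i + 1)).subtype, ?_, ?_, f, ?_, ?_⟩
      · intro x hx
        refine ⟨⟨x, hZm (Nat.le_succ i) hx⟩, ?_, rfl⟩
        show f _ = 1
        rw [hf]
        have h1 : (QuotientGroup.mk (⟨x, hZm (Nat.le_succ i) hx⟩ : Z (i + 1)) :
            (Z (i + 1)) ⧸ (Z i).subgroupOf (Z (i + 1))) = 1 := (QuotientGroup.eq_one_iff _).2 hx
        rw [h1]
        simp
      · exact map_subtype_le _
      · intro y
        obtain ⟨z, hz⟩ := QuotientGroup.mk_surjective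
          (Additive.toMul ((Multiplicative.toAdd y) • b k))
        refine ⟨z, ?_⟩
        rw [hf, hz]
        simp
      · intro z
        constructor
        · intro hz
          exact ⟨z, hz, rfl⟩
        · rintro ⟨w, hw, hwz⟩
          have : w = z := Subtype.ext hwz
          rw [← this]
          exact hw
    choose! A hA1 hA2 using hstep
    have h1 := hm (Finset.range c) A (fun i => Z (i + 1))
      (fun i hi => hA2 i (Finset.mem_range.1 hi))
      (fun i hi j hj hij => (hZm (by omega)).trans (hA1 j (Finset.mem_range.1 hj)))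
    rwa [Finset.card_range] at h1
  -- the kernels
  have hker : ∀ i, (conjQ (Z i) (Z (i + 1))).ker.index ≠ 0 ∧
      (conjQ (Z i) (Z (i + 1))).ker.index ≤ 3 ^ (m ^ 2) := by
    intro i
    apply ker_index (hab i) (hfg i) (htfU i) (hHU i)
    intro g
    obtain ⟨n, hn, _, hgn⟩ := exists_pow_mem_of_index_ne_zero hfi.index_ne_zero g
    refine ⟨n, hn, ?_⟩
    rw [← MonoidHom.mem_ker, mem_ker_conjQ]
    rintro _ ⟨x, hx, rfl⟩
    have h1 := Subgroup.mem_upperCentralSeries_succ_iff.1
      ((Subgroup.upperCentralSeries N (i + 1)).inv_mem hx) ⟨g ^ n, hgn⟩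
    refine ⟨_, h1, ?_⟩
    simp [commutatorElement_def, mul_assoc]
  refine ⟨⨅ i : Fin c, (conjQ (Z i) (Z (i + 1))).ker, c, ?_, ?_, ?_⟩
  · exact index_iInf_ne_zero (fun i => (hker i).1)
  · have h1 : ∏ i : Fin c, (conjQ (Z i) (Z (i + 1))).ker.index ≤ ∏ _i : Fin c, 3 ^ (m ^ 2) :=
      Finset.prod_le_prod' (fun i _ => (hker i).2)
    have h2 : ∏ _i : Fin c, 3 ^ (m ^ 2) = (3 ^ (m ^ 2)) ^ c := by simp
    have h3 : (3 ^ (m ^ 2)) ^ c ≤ (3 ^ (m ^ 2)) ^ m := Nat.pow_le_pow_right (by positivity) hcm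
    have h4 : (3 ^ (m ^ 2)) ^ m = 3 ^ (m ^ 3) := by rw [← pow_mul]; ring_nf
    exact (index_iInf_le _).trans (h1.trans (h2.le.trans (h3.trans h4.le)))
  · set K : Subgroup M := ⨅ i : Fin c, (conjQ (Z i) (Z (i + 1))).ker with hK
    have hKi : ∀ i < c, ∀ g ∈ K, ∀ x ∈ Z (i + 1), x⁻¹ * (g * x * g⁻¹) ∈ Z i := by
      intro i hi g hg
      have h1 : g ∈ (conjQ (Z i) (Z (i + 1))).ker := (mem_iInf.1 hg) ⟨i, hi⟩
      exact (mem_ker_conjQ _ _ _).1 h1
    have hNK : ∀ i ≤ c, ∀ x : K, (x : M) ∈ Z i → x ∈ Subgroup.upperCentralSeries K i := by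
      intro i
      induction i with
      | zero =>
        intro _ x hx
        obtain ⟨y, hy, hyx⟩ := hx
        rw [Subgroup.upperCentralSeries_zero] at hy ⊢
        have h1 : y = 1 := (mem_bot.1 hy)
        rw [h1] at hyx
        exact mem_bot.2 (Subtype.ext hyx.symm)
      | succ i ih =>
        intro hi x hx
        rw [Subgroup.mem_upperCentralSeries_succ_iff]
        intro y
        apply ih (by omega)
        have h1 := hKi i (by omega) y y.2 _ ((Z (i + 1)).inv_mem hx)
        have h2 : ((⁅x, y⁆ : K) : M) = ((x : M)⁻¹)⁻¹ * ((y : M) * (x : M)⁻¹ * (y : M)⁻¹) := by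
          simp [commutatorElement_def, mul_assoc]
        rw [h2]
        exact h1
    apply baer
    have hNZ : N ≤ Z c := by
      intro x hx
      exact ⟨⟨x, hx⟩, by rw [hctop]; exact mem_top _, rfl⟩
    have h1 : N.subgroupOf K ≤ Subgroup.upperCentralSeries K c := by
      intro x hx
      exact hNK c le_rfl x (hNZ hx)
    have h2 : (N.subgroupOf K).FiniteIndex := inferInstance
    exact finiteIndex_of_le h1

end Pool.Agent.Q11.HL
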