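import Pool.Agent.Q11.HL.Step
import Pool.Agent.Y552.CP.Fin

/-!
# The growth gap for solvable groups of bounded Hirsch length: assembly
-/

set_option autoImplicit false

namespace Pool.Agent.Q11.HL

open Pool.Agent.Y552.CT Pool.Agent.Y552.CP
open Subgroup Polynomial Filter Topology
open scoped commutatorElement Pointwise
open Pool.Agent.W963.GE (TT TT_finite TT_gen rho_TT vn_of_sub MM base eta_ge log_base_ge MM_ge)

universe u v

lemma HirschLE.of_subsingleton {G : Type u} [Group G] [Subsingleton G] : HirschLE G 0 := by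
  intro J A B h1 _
  rw [Nat.le_zero, Finset.card_eq_zero, Finset.eq_empty_iff_forall_notMem]
  intro j hj
  obtain ⟨_, f, hf, _⟩ := h1 j hj
  have : Subsingleton (Multiplicative ℤ) := hf.subsingleton
  have h2 : (Multiplicative.ofAdd (1 : ℤ)) = Multiplicative.ofAdd 0 := Subsingleton.elim _ _
  exact absurd (Multiplicative.ofAdd.injective h2) (by norm_num)

/-- the Hirsch length through the ranks of the derived factors -/
lemma hirsch_of_ranks {G : Type u} [Group G] {r : ℕ} (hr : derivedSeries G r = ⊥) (d : ℕ → ℕ)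
    (hd : ∀ i < r, Module.rank ℤ (Additive (Abelianization (derivedSeries G i))) ≤
      (d i : Cardinal.{u})) : HirschLE G (∑ i ∈ Finset.range r, d i) := by
  have key : ∀ k ≤ r, HirschLE (derivedSeries G (r - k)) (∑ i ∈ Finset.Ico (r - k) r, d i) := by
    intro k
    induction k with
    | zero =>
      intro _
      rw [Nat.sub_zero, Finset.Ico_self, Finset.sum_empty, hr]
      exact HirschLE.of_subsingleton
    | succ k ih =>
      intro hk
      have e : r - k = (r - (k + 1)) + 1 := by omega
      have hlt : r - (k + 1) < r := by omega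
      set i := r - (k + 1) with hi
      have ih' := ih (by omega)
      rw [e] at ih'
      rw [Finset.sum_eq_sum_Ico_succ_bot hlt, add_comm]
      apply HirschLE.ext (commutator (derivedSeries G i))
      · have hinc : ∀ x : commutator (derivedSeries G i),
            ((x : derivedSeries G i) : G) ∈ derivedSeries G (i + 1) := by
          intro x
          have h4 : ((x : derivedSeries G i) : G) ∈
            (commutator (derivedSeries G i)).map (derivedSeries G i).subtype := mem_map_of_mem _ x.2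
          rw [Subgroup.map_subtype_commutator] at h4
          rw [derivedSeries_succ]
          exact h4
        refine ih'.of_injective (φ := ((derivedSeries G i).subtype.comp
          (commutator (derivedSeries G i)).subtype).codRestrict _ hinc) ?_
        intro x y hxy
        exact Subtype.ext (Subtype.ext
          (congrArg (fun w : derivedSeries G (i + 1) => (w : G)) hxy))
      · exact HirschLE.of_rank (A := Abelianization (derivedSeries G i)) (hd i hlt)
  have h1 := key r le_rfl
  rw [Nat.sub_self, derivedSeries_zero, ← Finset.range_eq_Ico] at h1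
  exact h1.of_surjective (φ := (Subgroup.topEquiv (G := G)).toMonoidHom) Subgroup.topEquiv.surjective

/-- the numerical comparison -/
lemma num : ∃ C : ℝ, 0 < C ∧ ∀ h : ℕ, 1 ≤ h → (Jp h : ℝ) * Real.log (2 * h) ^ 3 ≤ C * 3 ^ (h ^ 3) := by
  have h1 := tendsto_pow_const_div_const_pow_of_one_lt 24 (show (1 : ℝ) < 3 by norm_num)
  obtain ⟨C, hC⟩ := h1.bddAbove_range
  refine ⟨8 * max C 1, by positivity, ?_⟩
  intro h hh
  have hh' : (1 : ℝ) ≤ h := by exact_mod_cast hh
  have h2 : (h : ℝ) ^ 24 ≤ C * 3 ^ h := by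
    have h3 := hC ⟨h, rfl⟩
    simp only at h3
    rwa [div_le_iff₀ (by positivity)] at h3
  have h3 : (Jp h : ℝ) ≤ (h : ℝ) ^ 21 := by
    have : Jp h ≤ h ^ 21 := min_le_left _ _
    exact_mod_cast this
  have h4 : Real.log (2 * h) ≤ 2 * h := by
    have := Real.log_le_sub_one_of_pos (show (0 : ℝ) < 2 * h by positivity)
    linarith
  have h40 : 0 ≤ Real.log (2 * h) := Real.log_nonneg (by linarith)
  have h5 : Real.log (2 * h) ^ 3 ≤ (2 * h) ^ 3 := pow_le_pow_left₀ h40 h4 3
  have h6 : (3 : ℝ) ^ h ≤ 3 ^ (h ^ 3) := by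
    apply pow_le_pow_right₀ (by norm_num)
    exact Nat.le_self_pow (by norm_num) h
  calc (Jp h : ℝ) * Real.log (2 * h) ^ 3 ≤ (h : ℝ) ^ 21 * (2 * h) ^ 3 := by gcongr
    _ = 8 * (h : ℝ) ^ 24 := by ring
    _ ≤ 8 * (max C 1 * 3 ^ h) := by
        have : C * 3 ^ h ≤ max C 1 * 3 ^ h := by gcongr; exact le_max_left _ _
        linarith
    _ ≤ 8 * (max C 1 * 3 ^ (h ^ 3)) := by gcongr
    _ = 8 * max C 1 * 3 ^ (h ^ 3) := by ring

/-- **the growth gap** -/
theorem final : ∃ c : ℝ, 0 < c ∧ ∀ (G : Type u) [Group G] (S : Set G) (H : Subgroup G) (q h r : ℕ),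
    S.Finite → closure S = ⊤ → H.index ≠ 0 → H.index ≤ q → 1 ≤ h → derivedSeries H r = ⊥ →
    ∑ i ∈ Finset.range r, Module.rank ℤ (Additive (Abelianization (derivedSeries H i))) ≤
      (h : Cardinal.{u}) →
    Group.IsVirtuallyNilpotent G ∨ c / (q * 3 ^ (h ^ 3)) ≤ H746UG.rho S := by
  obtain ⟨c₁, hc₁, hunc⟩ := Y552.CP.unc
  obtain ⟨C, hC, hnum⟩ := num
  refine ⟨min (c₁ / C) (Real.log 2 / 12), lt_min (by positivity)
    (div_pos (Real.log_pos (by norm_num)) (by norm_num)), ?_⟩
  intro G _ S H q h r hfin hgen hH0 hHq hh hr hsum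
  have hq : 1 ≤ q := by omega
  rcases S.eq_empty_or_nonempty with rfl | hne
  · left
    rw [Subgroup.closure_empty] at hgen
    have hsub : Subsingleton G := Subgroup.subsingleton_iff.1 (subsingleton_of_bot_eq_top hgen)
    exact ⟨⊤, (isNilpotent_iff_lowerCentralSeries _).2 ⟨0, Subsingleton.elim _ _⟩, inferInstance⟩
  set T := TT S H q with hT
  have hTf : T.Finite := TT_finite S hfin H q
  have hTg : closure T = ⊤ := TT_gen S hgen H hH0 hHq
  -- the ranks
  set R : ℕ → Cardinal.{u} := fun i =>
    Module.rank ℤ (Additive (Abelianization (derivedSeries H i))) with hR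
  have hRh : ∀ i < r, R i ≤ (h : Cardinal.{u}) := fun i hi =>
    (Finset.single_le_sum (f := R) (fun _ _ => zero_le) (Finset.mem_range.2 hi)).trans hsum
  have hRn : ∀ i < r, R i = ((R i).toNat : Cardinal.{u}) := fun i hi =>
    (Cardinal.cast_toNat_of_lt_aleph0 ((hRh i hi).trans_lt Cardinal.natCast_lt_aleph0)).symm
  have hHL : HirschLE H h := by
    refine (hirsch_of_ranks hr (fun i => (R i).toNat) (fun i hi => (hRn i hi).le)).mono ?_
    have h1 : ((∑ i ∈ Finset.range r, (R i).toNat : ℕ) : Cardinal.{u}) ≤ h := by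
      rw [Nat.cast_sum]
      refine le_trans (le_of_eq ?_) hsum
      exact Finset.sum_congr rfl (fun i hi => (hRn i (Finset.mem_range.1 hi)).symm)
    exact_mod_cast h1
  have hD1 : 1 ≤ Jp h := Jp_pos hh
  have hq' : (1 : ℝ) ≤ q := by exact_mod_cast hq
  have hpos : (0 : ℝ) < q * 3 ^ (h ^ 3) := by positivity
  rcases hirsch_main eig3 hr T hTf hTg hh hHL hRh (D := Jp h) le_rfl with h1 | h1 | h1
  · exact Or.inl (vn_of_sub H hH0 h1)
  · right
    have h2 := rho_TT S hfin hne H hq
    have he : ((2 * q - 1 : ℕ) : ℝ) = 2 * q - 1 := by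
      rw [Nat.cast_sub (by omega)]; push_cast; ring
    rw [he] at h2
    have h3 := h1.trans h2
    have hF : (1 : ℝ) ≤ FF h := by exact_mod_cast FF_pos h
    have hF2 : (FF h : ℝ) = 3 ^ (h ^ 3) := by unfold FF; push_cast; rfl
    rw [div_le_iff₀ (by linarith)] at h3
    have hρ : 0 ≤ H746UG.rho S := by
      have h4 : 0 < Real.log 2 := Real.log_pos (by norm_num)
      by_contra hcon
      push Not at hcon
      have h5 : (2 * (q : ℝ) - 1) * H746UG.rho S * (3 * (2 * FF h - 1)) < 0 := by
        apply mul_neg_of_neg_of_pos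
        · exact mul_neg_of_pos_of_neg (by linarith) hcon
        · linarith
      linarith
    have h4 : Real.log 2 ≤ 12 * (q * FF h) * H746UG.rho S := by
      refine h3.trans ?_
      have h5 : (2 * (q : ℝ) - 1) * (3 * (2 * FF h - 1)) ≤ 12 * (q * FF h) := by nlinarith
      calc (2 * (q : ℝ) - 1) * H746UG.rho S * (3 * (2 * FF h - 1)) =
            (2 * (q : ℝ) - 1) * (3 * (2 * FF h - 1)) * H746UG.rho S := by ring
        _ ≤ 12 * (q * FF h) * H746UG.rho S := mul_le_mul_of_nonneg_right h5 hρ
    rw [div_le_iff₀ hpos, ← hF2]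
    have h6 : min (c₁ / C) (Real.log 2 / 12) ≤ Real.log 2 / 12 := min_le_right _ _
    linarith
  · right
    have h2 : c₁ / (Jp h * q * Real.log (2 * h) ^ 3) ≤ H746UG.rho S := by
      apply hunc h (Jp h) q _ hh hD1 hq
      rcases alt_sub S hfin hne H hq h1 with h3 | ⟨t, x, ⟨p, hp0, hpd, hp⟩, h0, h3, h4, h5, h6⟩
      · left
        rw [← mul_assoc]
        exact h3
      · right
        refine ⟨x, h0, h3, h5, ?_, ?_⟩
        · exact (natDegree_le_of_dvd (minpoly.isIntegrallyClosed_dvd h3 hp) hp0).trans hpd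
        · rw [mul_assoc] at h6
          refine Y552.CP.mahler_of h3 ?_ h6
          have hD' : (1 : ℝ) ≤ Jp h := by exact_mod_cast hD1
          apply mul_pos <;> linarith
    refine le_trans ?_ h2
    have hl : 0 < Real.log (2 * h) := Real.log_pos (by
      have : (1 : ℝ) ≤ h := by exact_mod_cast hh
      linarith)
    have hJ : (0 : ℝ) < Jp h := by exact_mod_cast hD1
    have h3 := hnum h hh
    calc min (c₁ / C) (Real.log 2 / 12) / (q * 3 ^ (h ^ 3)) ≤ (c₁ / C) / (q * 3 ^ (h ^ 3)) :=
          div_le_div_of_nonneg_right (min_le_left _ _) hpos.le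
      _ = c₁ / (q * (C * 3 ^ (h ^ 3))) := by rw [div_div]; congr 1; ring
      _ ≤ c₁ / (q * ((Jp h : ℝ) * Real.log (2 * h) ^ 3)) := by
          apply div_le_div_of_nonneg_left hc₁.le (by positivity)
          gcongr
      _ = c₁ / (Jp h * q * Real.log (2 * h) ^ 3) := by congr 1; ring

end Pool.Agent.Q11.HL
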