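import Pool.Agent.Q11.HL.Chain

/-!
# Finitely generated torsion-free abelian groups: Minkowski's lemma modulo 3
-/

set_option autoImplicit false

namespace Pool.Agent.Q11.HL

open Subgroup

universe u v

section rank

variable {U : Type u} [CommGroup U]

/-- subgroup of the elements whose coordinates from `j` on vanish -/
def flag {n : ℕ} (b : Module.Basis (Fin n) ℤ (Additive U)) (j : ℕ) : Subgroup U where
  carrier := {u | ∀ i : Fin n, j ≤ i → b.repr (Additive.ofMul u) i = 0}
  one_mem' := fun i _ => by simp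
  mul_mem' := fun {x y} hx hy i hi => by
    rw [ofMul_mul, map_add, Finsupp.add_apply, hx i hi, hy i hi, add_zero]
  inv_mem' := fun {x} hx i hi => by
    rw [ofMul_inv, map_neg, Finsupp.neg_apply, hx i hi, neg_zero]

lemma rank_le {m n : ℕ} (h : HirschLE U m) (b : Module.Basis (Fin n) ℤ (Additive U)) : n ≤ m := by
  classical
  have h1 := h (Finset.range n) (fun j => flag b j) (fun j => flag b (j + 1)) ?_ ?_
  · rwa [Finset.card_range] at h1
  · intro j hj
    rw [Finset.mem_range] at hj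
    refine ⟨fun u hu i hi => hu i (by omega), ?_⟩
    let f0 : Additive U →+ ℤ := (b.coord ⟨j, hj⟩).toAddMonoidHom
    let f : (flag b (j + 1)) →* Multiplicative ℤ :=
      { toFun := fun u => Multiplicative.ofAdd (b.repr (Additive.ofMul (u : U)) ⟨j, hj⟩)
        map_one' := by simp
        map_mul' := fun x y => by
          rw [Subgroup.coe_mul, ofMul_mul, map_add, Finsupp.add_apply, ofAdd_add] }
    refine ⟨f, ?_, ?_⟩
    · intro y
      let u : U := Additive.toMul (Multiplicative.toAdd y • b ⟨j, hj⟩)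
      have hu : ∀ i : Fin n, b.repr (Additive.ofMul u) i =
          Multiplicative.toAdd y * if (⟨j, hj⟩ : Fin n) = i then 1 else 0 := by
        intro i
        show b.repr (Multiplicative.toAdd y • b ⟨j, hj⟩) i = _
        rw [map_smul, Finsupp.smul_apply, b.repr_self, Finsupp.single_apply, smul_eq_mul]
      have hm : u ∈ flag b (j + 1) := by
        intro i hi
        rw [hu, if_neg, mul_zero]
        intro h2
        rw [← h2] at hi
        simp at hi
      refine ⟨⟨u, hm⟩, ?_⟩
      show Multiplicative.ofAdd (b.repr (Additive.ofMul u) ⟨j, hj⟩) = y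
      rw [hu, if_pos rfl, mul_one]
      rfl
    · rintro ⟨u, hu⟩
      show Multiplicative.ofAdd (b.repr (Additive.ofMul u) ⟨j, hj⟩) = 1 ↔ u ∈ flag b j
      constructor
      · intro h2 i hi
        rcases Nat.lt_or_ge j i with h3 | h3
        · exact hu i h3
        · have h4 : i = ⟨j, hj⟩ := Fin.ext (by simp; omega)
          rw [h4]
          exact congrArg Multiplicative.toAdd h2
      · intro h2
        rw [h2 ⟨j, hj⟩ le_rfl]
        rfl
  · intro i _ j _ hij u hu k hk
    exact hu k (by omega)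

lemma basis_of [Group.FG U] (htf : ∀ u : U, IsOfFinOrder u → u = 1) :
    ∃ n : ℕ, Nonempty (Module.Basis (Fin n) ℤ (Additive U)) := by
  have hfin : Module.Finite ℤ (Additive U) := by
    rw [Module.Finite.iff_addGroup_fg]
    infer_instance
  have htors : Module.IsTorsionFree ℤ (Additive U) := by
    rw [Module.isTorsionFree_iff_smul_eq_zero]
    intro r u hru
    by_cases hr : r = 0
    · exact Or.inl hr
    · right
      have h1 : IsOfFinOrder (Additive.toMul u) :=
        isOfFinOrder_iff_zpow_eq_one.2 ⟨r, hr, congrArg Additive.toMul hru⟩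
      exact congrArg Additive.ofMul (htf _ h1)
  obtain ⟨n, b⟩ := Module.basisOfFiniteTypeTorsionFree' (R := ℤ) (M := Additive U)
  exact ⟨n, ⟨b⟩⟩

/-- the quotient by the cubes -/
lemma card_cubes {m : ℕ} (h : HirschLE U m) [Group.FG U] (htf : ∀ u : U, IsOfFinOrder u → u = 1) :
    Finite (U ⧸ (powMonoidHom 3 : U →* U).range) ∧
      Nat.card (U ⧸ (powMonoidHom 3 : U →* U).range) ≤ 3 ^ m := by
  classical
  obtain ⟨n, ⟨b⟩⟩ := basis_of htf
  have hn := rank_le h b
  let g : U →* Multiplicative (Fin n → ZMod 3) :=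
    { toFun := fun u => Multiplicative.ofAdd (fun i => ((b.repr (Additive.ofMul u) i : ℤ) : ZMod 3))
      map_one' := by
        apply Multiplicative.toAdd.injective
        funext i
        simp
      map_mul' := fun x y => by
        apply Multiplicative.toAdd.injective
        funext i
        show ((b.repr (Additive.ofMul (x * y)) i : ℤ) : ZMod 3) = _
        rw [ofMul_mul, map_add, Finsupp.add_apply, Int.cast_add]
        rfl }
  have hg : g.ker = (powMonoidHom 3 : U →* U).range := by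
    apply le_antisymm
    · intro u hu
      have h1 : ∀ i, ((b.repr (Additive.ofMul u) i : ℤ) : ZMod 3) = 0 := by
        intro i
        exact congrFun (congrArg Multiplicative.toAdd (MonoidHom.mem_ker.1 hu)) i
      have h2 : ∀ i, ∃ c : ℤ, b.repr (Additive.ofMul u) i = 3 * c := by
        intro i
        exact (ZMod.intCast_zmod_eq_zero_iff_dvd _ 3).1 (h1 i)
      choose c hc using h2
      refine ⟨Additive.toMul (∑ i, c i • b i), ?_⟩
      rw [powMonoidHom_apply, ← toMul_nsmul]
      apply Additive.ofMul.injective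
      show 3 • ∑ i, c i • b i = Additive.ofMul u
      rw [← b.sum_repr (Additive.ofMul u), Finset.smul_sum]
      refine Finset.sum_congr rfl (fun i _ => ?_)
      rw [hc i, mul_smul, ← natCast_zsmul]
      rfl
    · rintro _ ⟨v, rfl⟩
      rw [MonoidHom.mem_ker, powMonoidHom_apply, map_pow]
      apply Multiplicative.toAdd.injective
      funext i
      show (3 : ℕ) • ((b.repr (Additive.ofMul v) i : ℤ) : ZMod 3) = 0
      rw [nsmul_eq_mul]
      have : ((3 : ℕ) : ZMod 3) = 0 := by decide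
      rw [this, zero_mul]
  rw [← hg]
  have hcard : Nat.card (Multiplicative (Fin n → ZMod 3)) = 3 ^ n := by
    show Nat.card (Fin n → ZMod 3) = 3 ^ n
    rw [Nat.card_fun, Nat.card_fin, Nat.card_zmod]
  have hfinM : Finite (Multiplicative (Fin n → ZMod 3)) :=
    (inferInstance : Finite (Fin n → ZMod 3))
  refine ⟨Finite.of_equiv _ (QuotientGroup.quotientKerEquivRange g).symm.toEquiv, ?_⟩
  have h3 : Nat.card (U ⧸ g.ker) = Nat.card g.range :=
    Nat.card_congr (QuotientGroup.quotientKerEquivRange g).toEquiv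
  rw [h3]
  calc Nat.card g.range ≤ Nat.card (Multiplicative (Fin n → ZMod 3)) :=
        Nat.card_le_card_of_injective _ g.range.subtype_injective
    _ = 3 ^ n := hcard
    _ ≤ 3 ^ m := Nat.pow_le_pow_right (by norm_num) hn

end rank

section mink

variable {A : Type u} [AddCommGroup A]

lemma prime_step (hinj : ∀ (k : ℕ) (a : A), (3 ^ k : ℕ) • a = 0 → a = 0)
    (x : Module.End ℤ A) {l : ℕ} (hl : l.Prime) (h1 : (1 + x) ^ l = 1) {k : ℕ} (hk : 1 ≤ k)
    (hx : ∃ z : Module.End ℤ A, x = (3 ^ k : ℕ) • z) :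
    ∃ z : Module.End ℤ A, x = (3 ^ (k + 1) : ℕ) • z := by
  obtain ⟨z, hz⟩ := hx
  have hinj' : ∀ (j : ℕ) (y y' : Module.End ℤ A), (3 ^ j : ℕ) • y = (3 ^ j : ℕ) • y' → y = y' := by
    intro j y y' h
    ext a
    have h2 : (3 ^ j : ℕ) • (y a - y' a) = 0 := by
      rw [smul_sub, sub_eq_zero]
      exact congrArg (fun f : Module.End ℤ A => f a) h
    exact sub_eq_zero.1 (hinj j _ h2)
  by_cases h3 : l = 3
  · subst h3
    have h5 : (1 + x) ^ 3 = 1 + ((3 : ℕ) • x + ((3 : ℕ) • x ^ 2 + x ^ 3)) := by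
      have h6 : ((1 : Polynomial ℤ) + Polynomial.X) ^ 3 =
          1 + ((3 : ℕ) • Polynomial.X + ((3 : ℕ) • Polynomial.X ^ 2 + Polynomial.X ^ 3)) := by
        simp only [nsmul_eq_mul]
        push_cast
        ring
      have h7 := congrArg (Polynomial.aeval x) h6
      simpa only [map_add, map_pow, map_one, Polynomial.aeval_X, map_nsmul] using h7
    rw [h1] at h5
    have h6 : (3 : ℕ) • x + ((3 : ℕ) • x ^ 2 + x ^ 3) = 0 := by
      have := h5
      rwa [left_eq_add] at this
    obtain ⟨k, rfl⟩ : ∃ k', k = k' + 1 := ⟨k - 1, by omega⟩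
    have h7 : x ^ 2 = (3 ^ (2 * k + 2) : ℕ) • z ^ 2 := by
      rw [hz, smul_pow, ← pow_mul]
      congr 2
      ring
    have h8 : x ^ 3 = (3 ^ (3 * k + 3) : ℕ) • z ^ 3 := by
      rw [hz, smul_pow, ← pow_mul]
      congr 2
      ring
    have h9 : (3 : ℕ) • x = (3 ^ (k + 3) : ℕ) • (-((3 ^ k : ℕ) • z ^ 2 + (3 ^ (2 * k) : ℕ) • z ^ 3)) := by
      rw [eq_neg_of_add_eq_zero_left h6, h7, h8, smul_neg, smul_add, smul_smul, smul_smul, smul_smul]
      congr 2
      · congr 1
        ring
      · congr 1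
        ring
    refine ⟨-((3 ^ k : ℕ) • z ^ 2 + (3 ^ (2 * k) : ℕ) • z ^ 3), ?_⟩
    apply hinj' 1
    rw [pow_one, h9, smul_smul]
    congr 1
    ring
  · obtain ⟨w, hw⟩ := Polynomial.powAddExpansion (1 : Polynomial ℤ) Polynomial.X l
    have h5 := congrArg (Polynomial.aeval x) hw
    simp only [map_add, map_pow, map_one, Polynomial.aeval_X, map_mul, one_pow, mul_one,
      map_natCast] at h5
    rw [h1, add_assoc, left_eq_add] at h5
    have h6 : (l : ℤ) • x = - ((3 ^ (k + 1) : ℕ) • ((3 ^ (k - 1) : ℕ) •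
        ((Polynomial.aeval x) w * z ^ 2))) := by
      rw [zsmul_eq_mul, Int.cast_natCast, eq_neg_of_add_eq_zero_left h5]
      congr 1
      have h7 : x ^ 2 = (3 ^ (2 * k) : ℕ) • z ^ 2 := by
        rw [hz, smul_pow, ← pow_mul]
        congr 2
        ring
      rw [h7, mul_smul_comm, smul_smul]
      congr 1
      rw [← pow_add]
      congr 1
      omega
    -- `l` is prime to `3`
    have hcop : IsCoprime (l : ℤ) ((3 ^ (k + 1) : ℕ) : ℤ) := by
      rw [Nat.isCoprime_iff_coprime]
      exact ((Nat.coprime_primes hl Nat.prime_three).2 h3).pow_right _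
    obtain ⟨u, v, huv⟩ := hcop
    refine ⟨v • x - u • ((3 ^ (k - 1) : ℕ) • ((Polynomial.aeval x) w * z ^ 2)), ?_⟩
    have h8 : x = (u * l) • x + (v * ((3 ^ (k + 1) : ℕ) : ℤ)) • x := by
      rw [← add_smul, huv, one_smul]
    have h9 : x = u • ((l : ℤ) • x) + (v * ((3 ^ (k + 1) : ℕ) : ℤ)) • x := by
      rw [smul_smul]
      exact h8
    rw [h6] at h9
    have h10 : ∀ y : Module.End ℤ A, (3 ^ (k + 1) : ℕ) • y = ((3 ^ (k + 1) : ℕ) : ℤ) • y :=
      fun y => (natCast_zsmul y _).symm
    calc x = u • -((3 ^ (k + 1) : ℕ) • ((3 ^ (k - 1) : ℕ) • ((Polynomial.aeval x) w * z ^ 2))) +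
          (v * ((3 ^ (k + 1) : ℕ) : ℤ)) • x := h9
      _ = (3 ^ (k + 1) : ℕ) • (v • x - u • ((3 ^ (k - 1) : ℕ) • ((Polynomial.aeval x) w * z ^ 2))) := by
          rw [h10, h10]
          module

/-- **Minkowski's lemma** modulo 3 -/
theorem minkowski {n : ℕ} (b : Module.Basis (Fin n) ℤ A) (φ : Module.End ℤ A)
    (hφ : ∀ a, ∃ c, φ a - a = (3 : ℕ) • c) : ∀ N : ℕ, 0 < N → φ ^ N = 1 → φ = 1 := by
  have hinj : ∀ (k : ℕ) (a : A), (3 ^ k : ℕ) • a = 0 → a = 0 := by
    intro k a ha
    apply b.repr.injective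
    ext i
    have h1 := congrArg (fun y => b.repr y i) ha
    simp only [map_nsmul, Finsupp.smul_apply, map_zero, Finsupp.coe_zero, Pi.zero_apply,
      nsmul_eq_mul, mul_eq_zero] at h1
    rcases h1 with h1 | h1
    · exfalso
      have : ((3 ^ k : ℕ) : ℤ) ≠ 0 := by positivity
      exact this h1
    · rw [h1, map_zero]; rfl
  -- divisibility by 3 of `ψ - 1` for endomorphisms trivial modulo 3
  have hdiv : ∀ ψ : Module.End ℤ A, (∀ a, ∃ c, ψ a - a = (3 : ℕ) • c) →
      ∃ z : Module.End ℤ A, ψ - 1 = (3 ^ 1 : ℕ) • z := by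
    intro ψ hψ
    choose z hz using hψ
    have h3 : ∀ a a' : A, (3 : ℕ) • a = (3 : ℕ) • a' → a = a' := by
      intro a a' h
      have := hinj 1 (a - a') (by rw [pow_one, smul_sub, h, sub_self])
      exact sub_eq_zero.1 this
    refine ⟨{ toFun := z, map_add' := ?_, map_smul' := ?_ }, ?_⟩
    · intro a a'
      apply h3
      rw [smul_add, ← hz, ← hz, ← hz, map_add]
      abel
    · intro r a
      apply h3
      rw [RingHom.id_apply, smul_comm, ← hz, ← hz, map_smul, smul_sub]
    · ext a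
      show ψ a - a = (3 ^ 1 : ℕ) • z a
      rw [hz, pow_one]
  -- prime exponents
  have hprime : ∀ ψ : Module.End ℤ A, (∀ a, ∃ c, ψ a - a = (3 : ℕ) • c) → ∀ l : ℕ, l.Prime →
      ψ ^ l = 1 → ψ = 1 := by
    intro ψ hψ l hl h1
    have h2 : (1 + (ψ - 1)) ^ l = 1 := by rw [add_sub_cancel]; exact h1
    have h3 : ∀ k, ∃ z : Module.End ℤ A, ψ - 1 = (3 ^ (k + 1) : ℕ) • z := by
      intro k
      induction k with
      | zero => exact hdiv ψ hψ
      | succ k ih => exact prime_step hinj _ hl h2 (by omega) ih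
    rw [← sub_eq_zero]
    ext a
    show (ψ - 1) a = 0
    apply b.repr.injective
    ext i
    rw [map_zero]
    show b.repr ((ψ - 1) a) i = 0
    by_contra h0
    set t := b.repr ((ψ - 1) a) i with ht
    obtain ⟨z, hz⟩ := h3 t.natAbs
    have h4 : t = ((3 ^ (t.natAbs + 1) : ℕ) : ℤ) * b.repr (z a) i := by
      rw [ht]
      conv_lhs => rw [hz]
      show b.repr ((3 ^ (t.natAbs + 1) : ℕ) • z a) i = _
      rw [map_nsmul, Finsupp.smul_apply, nsmul_eq_mul]
    have h5 : (3 ^ (t.natAbs + 1) : ℕ) ∣ t.natAbs := by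
      rw [← Int.natCast_dvd_natCast]
      refine Int.dvd_natAbs.2 ⟨_, h4⟩
    have h6 := Nat.le_of_dvd (Int.natAbs_pos.2 h0) h5
    have h7 : t.natAbs < 3 ^ t.natAbs := Nat.lt_pow_self (by norm_num)
    have h8 : 3 ^ t.natAbs ≤ 3 ^ (t.natAbs + 1) := Nat.pow_le_pow_right (by norm_num) (by omega)
    omega
  -- powers are trivial modulo 3
  have hpow : ∀ ψ : Module.End ℤ A, (∀ a, ∃ c, ψ a - a = (3 : ℕ) • c) → ∀ N : ℕ,
      ∀ a, ∃ c, (ψ ^ N) a - a = (3 : ℕ) • c := by
    intro ψ hψ N
    induction N with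
    | zero => intro a; exact ⟨0, by simp⟩
    | succ N ih =>
      intro a
      obtain ⟨c, hc⟩ := ih (ψ a)
      obtain ⟨c', hc'⟩ := hψ a
      refine ⟨c + c', ?_⟩
      rw [smul_add, ← hc, ← hc', pow_succ, Module.End.mul_apply]
      abel
  intro N
  induction N using Nat.strong_induction_on generalizing φ with
  | _ N ih =>
    intro hN h1
    by_cases hN1 : N = 1
    · rw [hN1, pow_one] at h1
      exact h1
    · obtain ⟨l, hl, hlN⟩ := Nat.exists_prime_and_dvd hN1
      obtain ⟨N', rfl⟩ := hlN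
      have hN' : 0 < N' := Nat.pos_of_ne_zero (fun h => by rw [h] at hN; simp at hN)
      have h2 : (φ ^ N') ^ l = 1 := by rw [← pow_mul, mul_comm]; exact h1
      have h3 : φ ^ N' = 1 := hprime _ (hpow φ hφ N') l hl h2
      refine ih N' ?_ φ hφ hN' h3
      have := hl.two_le
      nlinarith

end mink

end Pool.Agent.Q11.HL
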