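import Pool.Agent.Q11.HL.Tor
import Pool.Agent.Y552.CP.Der

/-!
# One step along the derived series, with infinite torsion
-/

set_option autoImplicit false

namespace Pool.Agent.Q11.HL

open Pool.Agent.Y552.CT Pool.Agent.Y552.CP
open Subgroup Polynomial Filter Topology
open scoped commutatorElement Pointwise

universe u v

/-- the growth rate of a quotient -/
lemma rho_image {G : Type u} {H : Type v} [Group G] [Group H] (f : G →* H) {S : Set G}
    (hfin : S.Finite) (hne : S.Nonempty) : H746UG.rho (f '' S) ≤ H746UG.rho S := by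
  refine le_of_tendsto_of_tendsto' (H746UG.tendsto_rho (f '' S)) (H746UG.tendsto_rho S) ?_
  intro n
  have h1 : Finite ↥(S ^ n) := H746UG.finite_pow S hfin n
  have h2 : Nat.card ↥((f '' S) ^ n) ≤ Nat.card ↥(S ^ n) := by
    rw [← Set.image_pow]
    exact Nat.card_image_le h1
  have h3 : 0 < Nat.card ↥((f '' S) ^ n) := by
    have h4 : Finite ↥((f '' S) ^ n) := H746UG.finite_pow _ (hfin.image f) n
    obtain ⟨s, hs⟩ := hne
    have h5 : Nonempty ↥((f '' S) ^ n) := ⟨⟨f s ^ n, Set.pow_mem_pow ⟨s, hs, rfl⟩⟩⟩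
    exact Nat.card_pos
  apply div_le_div_of_nonneg_right _ (Nat.cast_nonneg n)
  exact Real.log_le_log (by exact_mod_cast h3) (by exact_mod_cast h2)

variable {G : Type u} [Group G]

/-- the linear part of the step -/
theorem lin_step (h3 : S_EIG3.{u, u}) (S : Set G) (hfin : S.Finite) (hgen : closure S = ⊤) (i : ℕ) {m : ℕ}
    (hm : 1 ≤ m)
    (hrk : Module.rank ℤ (Additive (Abelianization (derivedSeries G i))) ≤ (m : Cardinal.{u}))
    (hQ : Group.IsVirtuallyNilpotent (G ⧸ derivedSeries G i)) {D : ℕ} (hD : Jp m ≤ D) :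
    (∃ _ : (Tm (derivedSeries G i) ⊤).Normal,
      derivedSeries G (i + 1) ≤ Tm (derivedSeries G i) ⊤ ∧
      (∀ a ∈ Tm (derivedSeries G i) ⊤, ∃ n : ℕ, 0 < n ∧ a ^ n ∈ derivedSeries G (i + 1)) ∧
      Group.IsVirtuallyNilpotent (G ⧸ Tm (derivedSeries G i) ⊤)) ∨
      Alt S D (fun _ x => ∃ p : ℤ[X], p ≠ 0 ∧ p.natDegree ≤ m ∧ aeval x p = 0) := by
  classical
  set A := derivedSeries G i with hA
  obtain ⟨hfd, hdim, hker, hpol⟩ := Pool.Agent.Y809.CT.rk (Additive (Abelianization A)) m hrk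
  have e : (Additive (Abelianization A) →+ ℂ) ≃ₗ[ℂ] (Additive A →+ ℂ) :=
    LinearEquiv.ofBijective (ab A) (ab_bij A)
  have hfd' : FiniteDimensional ℂ (Additive A →+ ℂ) := Module.Finite.equiv e
  have hdim' : Module.finrank ℂ (Additive A →+ ℂ) ≤ m := by
    rw [← e.finrank_eq]; exact hdim
  have hst : St (ac A) (⊤ : Submodule ℂ (Additive A →+ ℂ)) := fun _ _ _ => Submodule.mem_top
  have hT : (Tm A ⊤).Normal := Tm_normal hst
  have hJ1 : 1 ≤ D := (Jp_pos hm).trans hD
  have hE : ∀ (X : Submodule ℂ (⊤ : Submodule ℂ (Additive A →+ ℂ))) (hX : St (rX hst) X), X ≠ ⊥ →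
      ∃ H : Subgroup G, H.index ≠ 0 ∧ H.index ≤ D ∧ ∃ v : X, v ≠ 0 ∧
        ∀ g ∈ H, ∃ c : ℂ, rX hX g v = c • v := by
    refine hE_poly hst h3 ⟨i, le_rfl⟩ inferInstance ?_ hD
    rw [finrank_top]
    exact hdim'
  have hP : ∀ (t : G) (χ : ℂ) (f : Additive A →+ ℂ), f ∈ (⊤ : Submodule ℂ (Additive A →+ ℂ)) →
      f ≠ 0 → ac A t f = χ • f → ∃ p : ℤ[X], p ≠ 0 ∧ p.natDegree ≤ m ∧ aeval χ p = 0 := by
    intro t χ f _ hf0 he
    obtain ⟨f', rfl⟩ := (ab_bij A).2 f
    obtain ⟨p, hp0, hpd, hp⟩ := hpol (cj A t⁻¹)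
    refine ⟨p, hp0, hpd, hp χ f' ?_ ?_⟩
    · intro h0
      rw [h0, map_zero] at hf0
      exact hf0 rfl
    · intro b
      rw [ac_ab, ← map_smul] at he
      have h1 := (ab_bij A).1 he
      exact DFunLike.congr_fun h1 b
  rcases step_alt S hfin hgen A hst inferInstance hQ hT hJ1 hE
    (P := fun _ x => ∃ p : ℤ[X], p ≠ 0 ∧ p.natDegree ≤ m ∧ aeval x p = 0) hP with h | h
  · left
    refine ⟨hT, ?_, ?_, h⟩
    · rw [derivedSeries_succ, commutator_le]
      intro x hx y hy
      refine ⟨(hA ▸ Subgroup.commutator_le_left A A : ⁅A, A⁆ ≤ A) (commutator_mem_commutator hx hy), ?_⟩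
      intro f _
      have h1 : (Additive.ofMul (⟨⁅x, y⁆, (Subgroup.commutator_le_left A A)
          (commutator_mem_commutator hx hy)⟩ : A)) =
          (Additive.ofMul (⟨x, hx⟩ : A) + Additive.ofMul (⟨y, hy⟩ : A)) +
            (-Additive.ofMul (⟨x, hx⟩ : A) + -Additive.ofMul (⟨y, hy⟩ : A)) := by
        show Additive.ofMul _ = Additive.ofMul
          (((⟨x, hx⟩ : A) * ⟨y, hy⟩) * ((⟨x, hx⟩ : A)⁻¹ * (⟨y, hy⟩ : A)⁻¹))
        congr 1
        apply Subtype.ext
        simp [commutatorElement_def, mul_assoc]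
      rw [h1, map_add, map_add, map_add, map_neg, map_neg]
      ring
    · rintro a ⟨ha, ha'⟩
      obtain ⟨n, hn, hn1⟩ := hker (Additive.ofMul (Abelianization.of ⟨a, ha⟩)) (by
        intro f
        exact ha' (ab A f) Submodule.mem_top)
      refine ⟨n, hn, ?_⟩
      have h2 : (Abelianization.of (⟨a, ha⟩ ^ n : A) : Abelianization A) = 1 := by
        rw [map_pow]
        exact hn1
      have h3 : (⟨a, ha⟩ ^ n : A) ∈ commutator A := (QuotientGroup.eq_one_iff _).1 h2
      have h4 : (((⟨a, ha⟩ : A) ^ n : A) : G) ∈ (commutator A).map A.subtype := mem_map_of_mem _ h3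
      rw [Subgroup.map_subtype_commutator] at h4
      rw [derivedSeries_succ]
      exact h4
  · exact Or.inr h

/-- **one step** -/
theorem step (h3 : S_EIG3.{u, u}) (hsol : Group.IsSolvable G) (S : Set G) (hfin : S.Finite)
    (hgen : closure S = ⊤) (i : ℕ) {m : ℕ} (hm : 1 ≤ m) (hH : HirschLE G m)
    (hrk : Module.rank ℤ (Additive (Abelianization (derivedSeries G i))) ≤ (m : Cardinal.{u}))
    (hQ : Group.IsVirtuallyNilpotent (G ⧸ derivedSeries G i)) {D : ℕ} (hD : Jp m ≤ D) :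
    Group.IsVirtuallyNilpotent (G ⧸ derivedSeries G (i + 1)) ∨
      Real.log 2 / (3 * (2 * FF m - 1)) ≤ H746UG.rho S ∨
      Alt S D (fun _ x => ∃ p : ℤ[X], p ≠ 0 ∧ p.natDegree ≤ m ∧ aeval x p = 0) := by
  classical
  rcases S.eq_empty_or_nonempty with rfl | hne
  · left
    rw [Subgroup.closure_empty] at hgen
    have hsub : Subsingleton G := Subgroup.subsingleton_iff.1 (subsingleton_of_bot_eq_top hgen)
    have hsub' : Subsingleton (G ⧸ derivedSeries G (i + 1)) :=
      (QuotientGroup.mk'_surjective (derivedSeries G (i + 1))).subsingleton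
    exact ⟨⊤, (isNilpotent_iff_lowerCentralSeries _).2 ⟨0, Subsingleton.elim _ _⟩, inferInstance⟩
  rcases lin_step h3 S hfin hgen i hm hrk hQ hD with ⟨hT, hle, htor, hvn⟩ | h
  · set T := Tm (derivedSeries G i) ⊤ with hTdef
    set D' := derivedSeries G (i + 1) with hD'
    set π := QuotientGroup.mk' D' with hπ
    have hπs : Function.Surjective π := QuotientGroup.mk'_surjective D'
    have hTn : (T.map π).Normal := hT.map _ hπs
    let φ : G →* (G ⧸ D') ⧸ (T.map π) := (QuotientGroup.mk' _).comp π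
    have hφ : Function.Surjective φ := (QuotientGroup.mk'_surjective _).comp hπs
    have hk : ∀ a ∈ T, φ a = 1 := by
      intro a ha
      exact (QuotientGroup.eq_one_iff _).2 (mem_map_of_mem _ ha)
    have hvn' : Group.IsVirtuallyNilpotent ((G ⧸ D') ⧸ (T.map π)) := by
      refine vn_of_surj (φ := QuotientGroup.lift T φ hk) ?_ hvn
      intro y
      obtain ⟨g, rfl⟩ := hφ y
      exact ⟨(g : G ⧸ T), rfl⟩
    have hgen' : closure (π '' S) = ⊤ := by
      rw [← MonoidHom.map_closure, hgen, ← MonoidHom.range_eq_map]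
      exact MonoidHom.range_eq_top.2 hπs
    have hsol' : Group.IsSolvable (G ⧸ D') := inferInstance
    have hTt : ∀ g ∈ T.map π, IsOfFinOrder g := by
      rintro _ ⟨a, ha, rfl⟩
      obtain ⟨n, hn, hn1⟩ := htor a ha
      refine isOfFinOrder_iff_pow_eq_one.2 ⟨n, hn, ?_⟩
      rw [← map_pow]
      exact (QuotientGroup.eq_one_iff _).2 hn1
    rcases tor_step hsol' (π '' S) (hfin.image π) hgen' (T.map π) hTt hvn'
      (hH.of_surjective hφ) with h | h
    · exact Or.inl h
    · exact Or.inr (Or.inl (h.trans (rho_image π hfin hne)))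
  · exact Or.inr (Or.inr h)

/-- **solvable groups of bounded Hirsch length** -/
theorem hirsch_main (h3 : S_EIG3.{u, u}) {r : ℕ} (hr : derivedSeries G r = ⊥) (S : Set G)
    (hfin : S.Finite) (hgen : closure S = ⊤) {m : ℕ} (hm : 1 ≤ m) (hH : HirschLE G m)
    (hrk : ∀ i < r, Module.rank ℤ (Additive (Abelianization (derivedSeries G i))) ≤
      (m : Cardinal.{u})) {D : ℕ} (hD : Jp m ≤ D) :
    Group.IsVirtuallyNilpotent G ∨
      Real.log 2 / (3 * (2 * FF m - 1)) ≤ H746UG.rho S ∨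
      Alt S D (fun _ x => ∃ p : ℤ[X], p ≠ 0 ∧ p.natDegree ≤ m ∧ aeval x p = 0) := by
  have hsol : Group.IsSolvable G := ⟨⟨r, hr⟩⟩
  by_contra hcon
  rw [not_or] at hcon
  obtain ⟨hnv, hna⟩ := hcon
  have key : ∀ i ≤ r, Group.IsVirtuallyNilpotent (G ⧸ derivedSeries G i) := by
    intro i
    induction i with
    | zero =>
      intro _
      have hsub' : Subsingleton (G ⧸ derivedSeries G 0) := by
        rw [derivedSeries_zero]
        exact QuotientGroup.subsingleton_quotient_top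
      exact ⟨⊤, (isNilpotent_iff_lowerCentralSeries _).2 ⟨0, Subsingleton.elim _ _⟩, inferInstance⟩
    | succ i ih =>
      intro hi
      rcases step h3 hsol S hfin hgen i hm hH (hrk i (by omega)) (ih (by omega)) hD with h | h
      · exact h
      · exact absurd h hna
  apply hnv
  have h3 : Function.Surjective (QuotientGroup.quotientBot (G := G)).toMonoidHom :=
    (QuotientGroup.quotientBot (G := G)).surjective
  refine vn_of_surj h3 ?_
  exact vn_quot_mono (T := derivedSeries G r) (U := ⊥) hr.le (key r le_rfl)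

end Pool.Agent.Q11.HL
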