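import Pool.Agent.Q11.HL.VN
import Pool.Agent.TH555.FG.Noeth
import Pool.Agent.W963.GE.Final

/-!
# Torsion-by-(virtually nilpotent of bounded Hirsch length)
-/

set_option autoImplicit false

namespace Pool.Agent.Q11.HL

open Subgroup
open scoped commutatorElement Pointwise
open Pool.Agent.H785R3.GrowthA (gam NoFree LF LF_of_solvable_torsion)
open Pool.Agent.W963.GE (TT TT_finite TT_gen rho_TT vn_of_sub)

universe u v

/-- the index -/
def FF (m : ℕ) : ℕ := 3 ^ (m ^ 3)

lemma FF_pos (m : ℕ) : 1 ≤ FF m := Nat.one_le_pow _ _ (by norm_num)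

lemma nilp_quot_gam (L : Type u) [Group L] (c : ℕ) : Group.IsNilpotent (L ⧸ gam L c) := by
  rw [Subgroup.nilpotent_iff_lowerCentralSeries]
  refine ⟨c, ?_⟩
  have h1 : (⊤ : Subgroup (L ⧸ gam L c)) = (⊤ : Subgroup L).map (QuotientGroup.mk' (gam L c)) := by
    rw [← MonoidHom.range_eq_map, MonoidHom.range_eq_top.2 (QuotientGroup.mk'_surjective _)]
  rw [h1, ← map_lowerCentralSeries, Subgroup.map_eq_bot_iff, QuotientGroup.ker_mk']

/-- **torsion step** -/
theorem tor_step {G : Type u} [Group G] (hsol : Group.IsSolvable G) (S : Set G) (hfin : S.Finite)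
    (hgen : closure S = ⊤) (T : Subgroup G) [T.Normal] (hT : ∀ g ∈ T, IsOfFinOrder g)
    (hvn : Group.IsVirtuallyNilpotent (G ⧸ T)) {m : ℕ} (hm : HirschLE (G ⧸ T) m) :
    Group.IsVirtuallyNilpotent G ∨ Real.log 2 / (3 * (2 * FF m - 1)) ≤ H746UG.rho S := by
  classical
  rcases S.eq_empty_or_nonempty with rfl | hne
  · left
    rw [Subgroup.closure_empty] at hgen
    have hsub : Subsingleton G := Subgroup.subsingleton_iff.1 (subsingleton_of_bot_eq_top hgen)
    exact ⟨⊤, (isNilpotent_iff_lowerCentralSeries _).2 ⟨0, Subsingleton.elim _ _⟩, inferInstance⟩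
  have hFG : Group.FG G := (Group.fg_iff).2 ⟨S, hgen, hfin⟩
  have hFGq : Group.FG (G ⧸ T) := inferInstance
  obtain ⟨K, c, hK0, hKm, hKc⟩ := core_vn hFGq hvn hm
  set π := QuotientGroup.mk' T with hπ
  have hπs : Function.Surjective π := QuotientGroup.mk'_surjective T
  set L : Subgroup G := K.comap π with hL
  have hL0 : L.index ≠ 0 := by rw [hL, index_comap_of_surjective _ hπs]; exact hK0
  have hLm : L.index ≤ FF m := by rw [hL, index_comap_of_surjective _ hπs]; exact hKm
  set U : Set L := TT S L (FF m) with hU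
  have hUf : U.Finite := TT_finite S hfin L (FF m)
  have hUg : closure U = ⊤ := TT_gen S hgen L hL0 hLm
  have hsolL : Group.IsSolvable L := inferInstance
  have htor : ∀ g ∈ gam L c, IsOfFinOrder g := by
    intro g hg
    have h1 : π.subgroupComap K g ∈ (⊤ : Subgroup K).lowerCentralSeries c := by
      have h2 : ((⊤ : Subgroup (K.comap π)).lowerCentralSeries c).map (π.subgroupComap K) ≤
          (⊤ : Subgroup K).lowerCentralSeries c := by
        rw [map_lowerCentralSeries]
        exact lowerCentralSeries_mono c le_top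
      exact h2 (mem_map_of_mem _ hg)
    obtain ⟨k, hk, hk1⟩ := isOfFinOrder_iff_pow_eq_one.1 (hKc _ h1)
    have h3 : π ((g : G) ^ k) = 1 := by
      rw [map_pow]
      exact congrArg Subtype.val hk1
    have h5 : (g : G) ^ k ∈ T := (QuotientGroup.eq_one_iff _).1 h3
    obtain ⟨l, hl, hl1⟩ := isOfFinOrder_iff_pow_eq_one.1 (hT _ h5)
    refine isOfFinOrder_iff_pow_eq_one.2 ⟨k * l, Nat.mul_pos hk hl, ?_⟩
    apply Subtype.ext
    rw [SubmonoidClass.coe_pow, pow_mul, hl1]
    rfl
  by_cases hNF : NoFree U 3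
  · left
    apply vn_of_sub L hL0
    exact Pool.Agent.TH555.FG.virtNilp_of_noFree hUf hUg hNF (gam L c) (nilp_quot_gam L c)
      (LF_of_solvable_torsion htor)
  · right
    have h1 := H746UG.rho_ge U (Pool.Agent.TH555.FG.two_pow_of_pair hUf hNF)
    have h2 := rho_TT S hfin hne L (FF_pos m)
    have hF1 : (1 : ℝ) ≤ FF m := by exact_mod_cast FF_pos m
    have he : ((2 * FF m - 1 : ℕ) : ℝ) = 2 * FF m - 1 := by
      rw [Nat.cast_sub (by have := FF_pos m; omega)]; push_cast; ring
    rw [he] at h2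
    have h3 := h1.trans h2
    rw [← div_div, div_le_iff₀ (by linarith)]
    linarith

end Pool.Agent.Q11.HL
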