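import Pool.Agent.Q11.HL.Core
import Pool.Agent.Helper111.EN.Basic

/-!
# Finitely generated virtually nilpotent groups of bounded Hirsch length
-/

set_option autoImplicit false

namespace Pool.Agent.Q11.HL

open Subgroup
open scoped commutatorElement Pointwise
open Pool.Agent.Helper111.EN

universe u v

/-- a subgroup with finite image and finite intersection with the kernel is finite -/
lemma finite_of_map {G : Type u} {H : Type v} [Group G] [Group H] (φ : G →* H) (V : Subgroup G)
    (h1 : Finite (V.map φ)) (h2 : Finite φ.ker) : Finite V := by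
  have h3 : (V : Set G).Finite := by
    refine Set.Finite.of_finite_fibers (f := φ) ?_ ?_
    · exact Set.toFinite (V.map φ : Set H)
    · rintro _ ⟨v, hv, rfl⟩
      have h4 : (V : Set G) ∩ φ ⁻¹' {φ v} ⊆ (fun k => v * k) '' (φ.ker : Set G) := by
        rintro x ⟨_, hx⟩
        refine ⟨v⁻¹ * x, ?_, by simp⟩
        rw [SetLike.mem_coe, MonoidHom.mem_ker, map_mul, map_inv]
        have : φ x = φ v := hx
        rw [this, inv_mul_cancel]
      exact ((Set.toFinite (φ.ker : Set G)).image _).subset h4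
  exact h3.to_subtype

/-- the union of the finite normal subgroups inside `N` -/
def fin (M : Type u) [Group M] (N : Subgroup M) : Subgroup M where
  carrier := {x | ∃ V : Subgroup M, V.Normal ∧ V ≤ N ∧ Finite V ∧ x ∈ V}
  one_mem' := ⟨⊥, inferInstance, bot_le, inferInstance, one_mem _⟩
  mul_mem' := by
    rintro x y ⟨V, hV, hVN, hVf, hx⟩ ⟨V', hV', hVN', hVf', hy⟩
    refine ⟨V ⊔ V', inferInstance, sup_le hVN hVN', ?_, mul_mem (mem_sup_left hx) (mem_sup_right hy)⟩
    have h1 : ((V ⊔ V' : Subgroup M) : Set M).Finite := by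
      rw [Subgroup.mul_normal]
      exact (Set.toFinite (V : Set M)).mul (Set.toFinite (V' : Set M))
    exact h1.to_subtype
  inv_mem' := by
    rintro x ⟨V, hV, hVN, hVf, hx⟩
    exact ⟨V, hV, hVN, hVf, inv_mem hx⟩

lemma mem_fin {M : Type u} [Group M] {N : Subgroup M} {x : M} :
    x ∈ fin M N ↔ ∃ V : Subgroup M, V.Normal ∧ V ≤ N ∧ Finite V ∧ x ∈ V := Iff.rfl

instance fin_normal {M : Type u} [Group M] (N : Subgroup M) : (fin M N).Normal := by
  constructor
  rintro x ⟨V, hV, hVN, hVf, hx⟩ g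
  exact ⟨V, hV, hVN, hVf, hV.conj_mem x hx g⟩

lemma fin_finite {M : Type u} [Group M] {N : Subgroup M} (h : (fin M N).FG) : Finite (fin M N) := by
  classical
  obtain ⟨S, hS⟩ := h
  have h1 : ∀ T : Finset M, (T : Set M) ⊆ fin M N →
      ∃ V : Subgroup M, V.Normal ∧ V ≤ N ∧ Finite V ∧ (T : Set M) ⊆ V := by
    intro T
    induction T using Finset.induction with
    | empty => exact fun _ => ⟨⊥, inferInstance, bot_le, inferInstance, by simp⟩
    | insert a T ha ih =>
      intro hT
      rw [Finset.coe_insert, Set.insert_subset_iff] at hT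
      obtain ⟨V, hV, hVN, hVf, hTV⟩ := ih hT.2
      obtain ⟨V', hV', hVN', hVf', haV⟩ := hT.1
      refine ⟨V ⊔ V', inferInstance, sup_le hVN hVN', ?_, ?_⟩
      · have h1 : ((V ⊔ V' : Subgroup M) : Set M).Finite := by
          rw [Subgroup.mul_normal]
          exact (Set.toFinite (V : Set M)).mul (Set.toFinite (V' : Set M))
        exact h1.to_subtype
      · rw [Finset.coe_insert, Set.insert_subset_iff]
        exact ⟨mem_sup_right haV, fun x hx => mem_sup_left (hTV hx)⟩
  obtain ⟨V, hV, hVN, hVf, hSV⟩ := h1 S (by rw [← hS]; exact subset_closure)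
  have h2 : fin M N ≤ V := by
    rw [← hS, closure_le]
    exact hSV
  exact Finite.of_injective (Subgroup.inclusion h2) (Subgroup.inclusion_injective h2)

/-- **virtually nilpotent groups of bounded Hirsch length** -/
theorem core_vn {M : Type u} [Group M] (hfg : Group.FG M) (hvn : Group.IsVirtuallyNilpotent M)
    {m : ℕ} (hm : HirschLE M m) :
    ∃ (K : Subgroup M) (c : ℕ), K.index ≠ 0 ∧ K.index ≤ 3 ^ (m ^ 3) ∧
      ∀ g ∈ (⊤ : Subgroup K).lowerCentralSeries c, IsOfFinOrder g := by
  classical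
  obtain ⟨N₀, hN₀, hN₀f⟩ := hvn
  set N := N₀.normalCore with hN
  have hNf : N.FiniteIndex := inferInstance
  have hNN : N ≤ N₀ := normalCore_le N₀
  have hnil : Group.IsNilpotent N :=
    Subgroup.isNilpotent_of_ker_le_center (Subgroup.inclusion hNN) (by
      rw [(MonoidHom.ker_eq_bot_iff _).2 (Subgroup.inclusion_injective hNN)]; exact bot_le)
  have hNfg : Group.FG N := inferInstance
  have hNS : NSc.NS N := NSc.NS_of_nilpotent_fg N hnil ((Group.fg_iff_subgroup_fg _).1 hNfg)
  set W := fin M N with hW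
  have hWN : W ≤ N := by
    rintro x ⟨V, _, hVN, _, hx⟩
    exact hVN hx
  have hWfin : Finite W := fin_finite (hNS W hWN)
  -- the quotient
  set π := QuotientGroup.mk' W with hπ
  have hπs : Function.Surjective π := QuotientGroup.mk'_surjective W
  have hπk : π.ker = W := QuotientGroup.ker_mk' W
  set N' := N.map π with hN'
  have hN'n : N'.Normal := (inferInstance : N.Normal).map π hπs
  have hN'f : N'.FiniteIndex := by
    constructor
    rw [hN', index_map_eq N hπs (by rw [hπk]; exact hWN)]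
    exact hNf.index_ne_zero
  have hNS' : NSc.NS N' := hNS.map π
  have hnil' : Group.IsNilpotent N' := by
    have := hnil
    exact Group.nilpotent_of_surjective (π.subgroupMap N) (π.subgroupMap_surjective N)
  have hNS'' : ∀ R : Subgroup N', R.FG := fun R => (NSc.NS_top_iff N').2 hNS' R le_top
  have htf : ∀ x ∈ Subgroup.upperCentralSeries N' 1, ∀ n : ℕ, 0 < n → x ^ n = 1 → x = 1 := by
    intro x hx n hn hxn
    rw [Subgroup.upperCentralSeries_one] at hx
    -- the torsion of the centre
    let T₂ : Subgroup (M ⧸ W) :=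
      { carrier := {y | (∀ z ∈ N', z * y = y * z) ∧ y ∈ N' ∧ IsOfFinOrder y}
        one_mem' := ⟨fun z _ => by simp, one_mem _, IsOfFinOrder.one⟩
        mul_mem' := by
          rintro a b ⟨ha, haN, hao⟩ ⟨hb, hbN, hbo⟩
          refine ⟨fun z hz => ?_, mul_mem haN hbN, ?_⟩
          · rw [← mul_assoc, ha z hz, mul_assoc, hb z hz, mul_assoc]
          · exact Commute.isOfFinOrder_mul (hb a haN) hao hbo
        inv_mem' := by
          rintro a ⟨ha, haN, hao⟩
          refine ⟨fun z hz => ?_, inv_mem haN, hao.inv⟩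
          have h1 : Commute z a := ha z hz
          exact h1.inv_right.eq }
    have hmem : ∀ y : M ⧸ W, y ∈ T₂ ↔ (∀ z ∈ N', z * y = y * z) ∧ y ∈ N' ∧ IsOfFinOrder y :=
      fun y => Iff.rfl
    have hT₂fin : Finite T₂ := by
      let _ : CommGroup T₂ := { (inferInstance : Group T₂) with
        mul_comm := fun a b => Subtype.ext (((hmem _).1 b.2).1 a ((hmem _).1 a.2).2.1) }
      have h1 : Group.FG T₂ := (Group.fg_iff_subgroup_fg _).2 (hNS' T₂ (fun y hy => hy.2.1))
      refine CommGroup.finite_of_fg_isMulTorsion _ ?_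
      rintro ⟨t, ht⟩
      obtain ⟨k, hk, hk1⟩ := isOfFinOrder_iff_pow_eq_one.1 ht.2.2
      exact isOfFinOrder_iff_pow_eq_one.2 ⟨k, hk, Subtype.ext hk1⟩
    have hT₂n : T₂.Normal := by
      constructor
      intro y hy g
      rw [hmem] at hy ⊢
      obtain ⟨hc, h, ho⟩ := hy
      refine ⟨?_, hN'n.conj_mem y h g, ?_⟩
      · intro z hz
        have h2 := hc (g⁻¹ * z * g) (by
          have := hN'n.conj_mem z hz g⁻¹
          rwa [inv_inv] at this)
        have h3 : g * (g⁻¹ * z * g * y) * g⁻¹ = g * (y * (g⁻¹ * z * g)) * g⁻¹ := by rw [h2]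
        have e1 : g * (g⁻¹ * z * g * y) * g⁻¹ = z * (g * y * g⁻¹) := by group
        have e2 : g * (y * (g⁻¹ * z * g)) * g⁻¹ = g * y * g⁻¹ * z := by group
        rw [e1, e2] at h3
        exact h3
      · obtain ⟨k, hk, hk1⟩ := isOfFinOrder_iff_pow_eq_one.1 ho
        refine isOfFinOrder_iff_pow_eq_one.2 ⟨k, hk, ?_⟩
        rw [conj_pow, hk1]
        group
    -- the preimage
    set V := T₂.comap π with hV
    have hVn : V.Normal := hT₂n.comap π
    have hVN : V ≤ N := by
      intro y hy
      have h1 : π y ∈ T₂ := hy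
      rw [hmem] at h1
      obtain ⟨_, ⟨w, hw, hwy⟩, _⟩ := h1
      have h2 : w⁻¹ * y ∈ W := QuotientGroup.eq.1 hwy
      have h3 := N.mul_mem hw (hWN h2)
      rwa [mul_inv_cancel_left] at h3
    have hVf : Finite V := by
      apply finite_of_map π
      · rw [hV, map_comap_eq_self_of_surjective hπs]
        exact hT₂fin
      · rw [hπk]; exact hWfin
    have h5 : (x : M ⧸ W) ∈ T₂ := by
      rw [hmem]
      refine ⟨fun z hz => congrArg Subtype.val (mem_center_iff.1 hx ⟨z, hz⟩), x.2,
        isOfFinOrder_iff_pow_eq_one.2 ⟨n, hn, ?_⟩⟩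
      exact congrArg Subtype.val hxn
    obtain ⟨y, hy⟩ := hπs x
    have h6 : y ∈ V := by
      show π y ∈ T₂
      rw [hy]; exact h5
    have h7 : y ∈ W := ⟨V, hVn, hVN, hVf, h6⟩
    apply Subtype.ext
    rw [← hy]
    exact (QuotientGroup.eq_one_iff y).2 h7
  obtain ⟨K, c, hK0, hKm, hKc⟩ := core_tf N' hN'f hnil' hNS'' htf (hm.quot W)
  refine ⟨K.comap π, c, ?_, ?_, ?_⟩
  · rw [index_comap_of_surjective _ hπs]; exact hK0
  · rw [index_comap_of_surjective _ hπs]; exact hKm
  · intro g hg
    have h1 : π.subgroupComap K g ∈ (⊤ : Subgroup K).lowerCentralSeries c := by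
      have h2 : ((⊤ : Subgroup (K.comap π)).lowerCentralSeries c).map (π.subgroupComap K) ≤
          (⊤ : Subgroup K).lowerCentralSeries c := by
        rw [map_lowerCentralSeries]
        exact lowerCentralSeries_mono c le_top
      exact h2 (mem_map_of_mem _ hg)
    obtain ⟨k, hk, hk1⟩ := isOfFinOrder_iff_pow_eq_one.1 (isOfFinOrder_of_finite
      (⟨_, h1⟩ : (⊤ : Subgroup K).lowerCentralSeries c))
    have h3 : π ((g : M) ^ k) = 1 := by
      rw [map_pow]
      exact congrArg (fun w : (⊤ : Subgroup K).lowerCentralSeries c => ((w : K) : M ⧸ W)) hk1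
    have h5 : (g : M) ^ k ∈ W := (QuotientGroup.eq_one_iff _).1 h3
    obtain ⟨l, hl, hl1⟩ := isOfFinOrder_iff_pow_eq_one.1 (isOfFinOrder_of_finite (⟨_, h5⟩ : W))
    refine isOfFinOrder_iff_pow_eq_one.2 ⟨k * l, Nat.mul_pos hk hl, ?_⟩
    apply Subtype.ext
    have h6 := congrArg Subtype.val hl1
    simpa [pow_mul] using h6

end Pool.Agent.Q11.HL
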